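import Pool.Agent.W413.MZ.Disc

set_option autoImplicit false

/-!
# The field of the cube root of two: class number one and units
-/

namespace Pool.Agent.Y180

open IsDedekindDomain NumberField Module

namespace Cbrt

lemma no_cube (b : ℚ) : b ^ 3 ≠ 2 := by
  intro h
  have h1 : (b.num : ℚ) ^ 3 = 2 * (b.den : ℚ) ^ 3 := by
    have hd : (b.den : ℚ) ≠ 0 := by exact_mod_cast b.den_nz
    have hb : b = b.num / b.den := (Rat.num_div_den b).symm
    rw [hb, div_pow, div_eq_iff (pow_ne_zero 3 hd)] at h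
    exact h
  have h2 : b.num ^ 3 = 2 * (b.den : ℤ) ^ 3 := by exact_mod_cast h1
  have h3 : (2 : ℤ) ∣ b.num := by
    have : (2 : ℤ) ∣ b.num ^ 3 := ⟨_, h2⟩
    exact Int.prime_two.dvd_of_dvd_pow this
  obtain ⟨c, hc⟩ := h3
  have h4 : (b.den : ℤ) ^ 3 = 2 * (2 * c ^ 3) := by
    rw [hc] at h2
    nlinarith
  have h5 : (2 : ℤ) ∣ (b.den : ℤ) := by
    have : (2 : ℤ) ∣ (b.den : ℤ) ^ 3 := ⟨_, h4⟩
    exact Int.prime_two.dvd_of_dvd_pow this
  have h6 : (2 : ℕ) ∣ b.num.natAbs := by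
    rw [hc]
    simp [Int.natAbs_mul]
  have h7 : (2 : ℕ) ∣ b.den := by exact_mod_cast h5
  have h8 := Nat.dvd_gcd h6 h7
  rw [b.reduced] at h8
  exact absurd h8 (by norm_num)

variable {k : Type} [Field k] [NumberField k]

lemma minpoly_eq {π : k} (hπ : π ^ 3 = 2) : minpoly ℚ π = Polynomial.X ^ 3 - Polynomial.C 2 := by
  have hirr : Irreducible (Polynomial.X ^ 3 - Polynomial.C (2 : ℚ)) :=
    X_pow_sub_C_irreducible_of_prime Nat.prime_three no_cube
  refine (minpoly.eq_of_irreducible_of_monic hirr ?_ (Polynomial.monic_X_pow_sub_C 2 (by norm_num))).symm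
  simp [hπ]

lemma exists_basis (hk : finrank ℚ k = 3) {π : k} (hπ : π ^ 3 = 2) :
    ∃ b : Basis (Fin 3) ℚ k, ∀ i, b i = π ^ (i : ℕ) := by
  have h1 : (minpoly ℚ π).natDegree = 3 := by
    rw [minpoly_eq hπ]
    exact Polynomial.natDegree_X_pow_sub_C
  have h2 := linearIndependent_pow (K := ℚ) π
  rw [h1] at h2
  let b := basisOfLinearIndependentOfCardEqFinrank h2 (by simp [hk])
  refine ⟨b, fun i => ?_⟩
  simp [b]

/-- the structure constants -/
def cc (i j l : Fin 3) : ℤ :=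
  if (i : ℕ) + j = l then 1 else if (i : ℕ) + j = l + 3 then 2 else 0

lemma discr_b {π : k} (hπ : π ^ 3 = 2) (b : Basis (Fin 3) ℚ k) (hb : ∀ i, b i = π ^ (i : ℕ)) :
    Algebra.discr ℚ b = ((-108 : ℤ) : ℚ) := by
  rw [MZ413.discr_of_struct b cc]
  · congr 1
  · intro i j
    rw [Fin.sum_univ_three]
    simp only [hb]
    fin_cases i <;> fin_cases j <;> simp [cc]
    · ring
    · linear_combination hπ
    · linear_combination hπ
    · linear_combination π * hπ

lemma discr_facts (hk : finrank ℚ k = 3) {π : k} (hπ : π ^ 3 = 2) :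
    discr k < 0 ∧ |discr k| ≤ 108 := by
  obtain ⟨b, hb⟩ := exists_basis hk hπ
  have hint : IsIntegral ℤ π := ⟨Polynomial.X ^ 3 - Polynomial.C 2,
    Polynomial.monic_X_pow_sub_C 2 (by norm_num), by simp [hπ]⟩
  let p : 𝓞 k := ⟨π, hint⟩
  obtain ⟨m, hm, hm0, -⟩ := MZ413.exists_index b (fun i => p ^ (i : ℕ)) (fun i => by
    rw [hb, map_pow]; rfl) (-108) (discr_b hπ b hb)
  have hm2 : 1 ≤ m ^ 2 := by
    have : 0 < m ^ 2 := by positivity
    omega
  have hneg : discr k < 0 := by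
    by_contra h
    push Not at h
    nlinarith
  refine ⟨hneg, ?_⟩
  rw [abs_of_neg hneg]
  nlinarith

lemma places (hk : finrank ℚ k = 3) {π : k} (hπ : π ^ 3 = 2) :
    InfinitePlace.nrComplexPlaces k = 1 ∧ InfinitePlace.nrRealPlaces k = 1 := by
  have h1 := InfinitePlace.card_add_two_mul_card_eq_rank k
  rw [hk] at h1
  have h2 : InfinitePlace.nrComplexPlaces k ≠ 0 := by
    intro h
    have h3 := NumberField.sign_discr k
    rw [h, pow_zero] at h3
    have h4 := (discr_facts hk hπ).1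
    rw [Int.sign_eq_one_iff_pos] at h3
    omega
  omega

lemma norm_pi_sub_one (hk : finrank ℚ k = 3) {π : k} (hπ : π ^ 3 = 2) :
    Algebra.norm ℚ (π - 1) = 1 := by
  obtain ⟨b, hb⟩ := exists_basis hk hπ
  rw [Algebra.norm_eq_matrix_det b]
  have h : Algebra.leftMulMatrix b (π - 1) = !![-1, 0, 2; 1, -1, 0; 0, 1, -1] := by
    ext i j
    rw [Algebra.leftMulMatrix_eq_repr_mul]
    have e : (π - 1) * b j = ∑ l, (!![-1, 0, 2; 1, -1, 0; 0, 1, -1] : Matrix (Fin 3) (Fin 3) ℚ) l j • b l := by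
      rw [Fin.sum_univ_three]
      simp only [hb]
      fin_cases j <;> simp [Algebra.smul_def]
      · ring
      · ring
      · linear_combination hπ
    rw [e]
    simp [Finsupp.single_apply, Fin.sum_univ_three]
    fin_cases i <;> fin_cases j <;> simp
  rw [h, Matrix.det_fin_three]
  simp
  norm_num

lemma norm_pi (hk : finrank ℚ k = 3) {π : k} (hπ : π ^ 3 = 2) : Algebra.norm ℚ π = 2 := by
  have h : (Algebra.norm ℚ π) ^ 3 = 2 ^ 3 := by
    rw [← map_pow, hπ]
    have := Algebra.norm_algebraMap (S := k) (2 : ℚ)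
    rw [hk] at this
    simpa using this
  exact (Odd.strictMono_pow (by decide : Odd 3)).injective h

omit [NumberField k] in
lemma coe_cube {p : 𝓞 k} (hp : p ^ 3 = 2) : (algebraMap (𝓞 k) k p) ^ 3 = 2 := by
  rw [← map_pow, hp, map_ofNat]

lemma absNorm_p (hk : finrank ℚ k = 3) {p : 𝓞 k} (hp : p ^ 3 = 2) :
    Ideal.absNorm (Ideal.span {p}) = 2 := by
  rw [Ideal.absNorm_span_singleton]
  have h : (Algebra.norm ℤ p : ℚ) = 2 := by
    rw [Algebra.coe_norm_int]
    exact norm_pi hk (coe_cube hp)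
  have h2 : Algebra.norm ℤ p = 2 := by exact_mod_cast h
  rw [h2]
  rfl

lemma not_unit_p (hk : finrank ℚ k = 3) {p : 𝓞 k} (hp : p ^ 3 = 2) : ¬ IsUnit p := by
  intro h
  have h1 := absNorm_p hk hp
  rw [Ideal.span_singleton_eq_top.2 h, Ideal.absNorm_top] at h1
  exact absurd h1 (by norm_num)

lemma prime_p (hk : finrank ℚ k = 3) {p : 𝓞 k} (hp : p ^ 3 = 2) : (Ideal.span {p}).IsPrime :=
  Ideal.isPrime_of_irreducible_absNorm (by rw [absNorm_p hk hp]; exact Nat.prime_two)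

lemma p_ne {p : 𝓞 k} (hp : p ^ 3 = 2) : p ≠ 0 := by
  rintro rfl
  norm_num at hp

lemma pid (hk : finrank ℚ k = 3) {p : 𝓞 k} (hp : p ^ 3 = 2) : IsPrincipalIdealRing (𝓞 k) := by
  obtain ⟨hc, hr⟩ := places hk (coe_cube hp)
  have hd := (discr_facts hk (coe_cube hp)).2
  apply RingOfIntegers.isPrincipalIdealRing_of_isPrincipal_of_norm_le
  intro I hN
  have hI0 : (I : Ideal (𝓞 k)) ≠ ⊥ := nonZeroDivisors.coe_ne_zero I
  have hlt : (Ideal.absNorm (I : Ideal (𝓞 k)) : ℝ) < 3 := by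
    refine hN.trans_lt ?_
    rw [hc, hk]
    have h1 : |((discr k : ℤ) : ℝ)| ≤ 108 := by exact_mod_cast hd
    have h2 : Real.sqrt |((discr k : ℤ) : ℝ)| ≤ 10.393 := by
      rw [Real.sqrt_le_left (by norm_num)]
      refine h1.trans (by norm_num)
    have h3 : 4 / Real.pi ≤ 1.2733 := by
      rw [div_le_iff₀ Real.pi_pos]
      have := Real.pi_gt_d4
      nlinarith
    have h4 : (0 : ℝ) ≤ 4 / Real.pi := by have := Real.pi_pos; positivity
    have h5 := Real.sqrt_nonneg |((discr k : ℤ) : ℝ)|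
    have e : ((Nat.factorial 3 : ℕ) : ℝ) = 6 := by norm_num [Nat.factorial]
    rw [pow_one, e]
    push_cast
    nlinarith [mul_le_mul h3 h2 h5 (by norm_num : (0 : ℝ) ≤ 1.2733)]
  have hlt2 : Ideal.absNorm (I : Ideal (𝓞 k)) < 3 := by exact_mod_cast hlt
  have hpos : Ideal.absNorm (I : Ideal (𝓞 k)) ≠ 0 := Ideal.absNorm_ne_zero_of_nonZeroDivisors I
  rcases (show Ideal.absNorm (I : Ideal (𝓞 k)) = 1 ∨ Ideal.absNorm (I : Ideal (𝓞 k)) = 2 by omega) with
    h1 | h2
  · rw [Ideal.absNorm_eq_one_iff.1 h1]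
    exact top_isPrincipal
  · have hprime : (I : Ideal (𝓞 k)).IsPrime :=
      Ideal.isPrime_of_irreducible_absNorm (by rw [h2]; exact Nat.prime_two)
    have hmem : (2 : 𝓞 k) ∈ (I : Ideal (𝓞 k)) := by
      have := Ideal.absNorm_mem (I : Ideal (𝓞 k))
      rw [h2] at this
      exact_mod_cast this
    have hpm : p ∈ (I : Ideal (𝓞 k)) := by
      rw [← hp] at hmem
      exact hprime.mem_of_pow_mem 3 hmem
    have hle : Ideal.span {p} ≤ (I : Ideal (𝓞 k)) := (Ideal.span_singleton_le_iff_mem _).2 hpm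
    have hmax : (Ideal.span {p}).IsMaximal := (prime_p hk hp).isMaximal (by simpa using p_ne hp)
    rw [← hmax.eq_of_le hprime.ne_top hle]
    exact ⟨⟨p, rfl⟩⟩

lemma resid (hk : finrank ℚ k = 3) {p : 𝓞 k} (hp : p ^ 3 = 2) (u : 𝓞 k) : p ∣ u ∨ p ∣ u - 1 := by
  have h1 : Nat.card (𝓞 k ⧸ Ideal.span {p}) = 2 := by
    have := absNorm_p hk hp
    rwa [Ideal.absNorm_apply, Submodule.cardQuot_apply] at this
  have h2 : (1 : 𝓞 k ⧸ Ideal.span {p}) ≠ 0 := by
    intro h
    have h3 : (1 : 𝓞 k) ∈ Ideal.span {p} := by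
      rw [← Ideal.Quotient.eq_zero_iff_mem, map_one, h]
    exact (prime_p hk hp).ne_top ((Ideal.eq_top_iff_one _).2 h3)
  obtain ⟨y, hy, hyu⟩ := (Nat.card_eq_two_iff' (0 : 𝓞 k ⧸ Ideal.span {p})).1 h1
  by_cases h : Ideal.Quotient.mk (Ideal.span {p}) u = 0
  · left
    rwa [Ideal.Quotient.eq_zero_iff_mem, Ideal.mem_span_singleton] at h
  · right
    have h3 : Ideal.Quotient.mk (Ideal.span {p}) u = 1 := (hyu _ h).trans (hyu _ h2).symm
    rw [← Ideal.mem_span_singleton, ← Ideal.Quotient.eq_zero_iff_mem, map_sub, h3, map_one, sub_self]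

lemma not_sq (hk : finrank ℚ k = 3) {p : 𝓞 k} (hp : p ^ 3 = 2) (u : 𝓞 k) :
    u ^ 2 ≠ p - 1 ∧ u ^ 2 ≠ -(p - 1) := by
  have hnu := not_unit_p hk hp
  have hp0 := p_ne hp
  have key : ∀ c : 𝓞 k, 1 = p * c → False := fun c hc =>
    hnu (IsUnit.of_mul_eq_one c hc.symm)
  rcases resid hk hp u with ⟨v, hv⟩ | ⟨v, hv⟩
  · refine ⟨fun h => ?_, fun h => ?_⟩
    · exact key (1 - p * v ^ 2) (by rw [hv] at h; linear_combination h)
    · exact key (1 + p * v ^ 2) (by rw [hv] at h; linear_combination (-1 : 𝓞 k) * h)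
  · have hu : u = 1 + p * v := by linear_combination hv
    refine ⟨fun h => ?_, fun h => ?_⟩
    · -- `1 + 2 p v + p² v² = p - 1`
      have h1 : p * (p * (v ^ 2 + p ^ 2 * v) + p ^ 2) = p * 1 := by
        rw [hu] at h
        linear_combination h + (p * v + 1) * hp
      have h2 := mul_left_cancel₀ hp0 h1
      exact key (v ^ 2 + p ^ 2 * v + p) (by linear_combination (-1 : 𝓞 k) * h2)
    · have h1 : p * (p * (v ^ 2 + p ^ 2 * v)) = p * (-1) := by
        rw [hu] at h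
        linear_combination h + (p * v) * hp
      have h2 := mul_left_cancel₀ hp0 h1
      exact key (-(v ^ 2 + p ^ 2 * v)) (by linear_combination (1 : 𝓞 k) * h2)

lemma units_gen (hk : finrank ℚ k = 3) {p : 𝓞 k} (hp : p ^ 3 = 2) :
    ∃ η : (𝓞 k)ˣ, ∀ x : (𝓞 k)ˣ, ∃ n : ℤ, x = η ^ n ∨ x = -η ^ n := by
  have hrank : Units.rank k = 1 := by
    obtain ⟨hc, hr⟩ := places hk (coe_cube hp)
    have : Fintype.card (InfinitePlace k) = 2 := by
      rw [InfinitePlace.card_eq_nrRealPlaces_add_nrComplexPlaces, hc, hr]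
    unfold Units.rank
    rw [this]
  have hs : Subsingleton (Fin (Units.rank k)) := by rw [hrank]; infer_instance
  let i0 : Fin (Units.rank k) := ⟨0, by rw [hrank]; exact one_pos⟩
  refine ⟨Units.fundSystem k i0, fun x => ?_⟩
  obtain ⟨⟨ζ, e⟩, hx, -⟩ := Units.exist_unique_eq_mul_prod k x
  rw [Fintype.prod_subsingleton _ i0] at hx
  refine ⟨e i0, ?_⟩
  rcases Units.torsion_eq_one_or_neg_one_of_odd_finrank (by rw [hk]; decide) ζ with h | h
  · left
    rw [hx, h, one_mul]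
  · right
    rw [hx, h, neg_one_mul]

/-- the unit -/
noncomputable def ep {p : 𝓞 k} (hp : p ^ 3 = 2) : (𝓞 k)ˣ :=
  ⟨p - 1, p ^ 2 + p + 1, by linear_combination hp, by linear_combination hp⟩

lemma units_cls (hk : finrank ℚ k = 3) {p : 𝓞 k} (hp : p ^ 3 = 2) (x : (𝓞 k)ˣ) :
    ∃ s : (𝓞 k)ˣ, x = s ^ 2 ∨ x = -s ^ 2 ∨ x = ep hp * s ^ 2 ∨ x = -(ep hp * s ^ 2) := by
  obtain ⟨η, hη⟩ := units_gen hk hp
  -- the exponent of `ep` is odd
  obtain ⟨m, hm⟩ := hη (ep hp)
  have hmo : ¬ Even m := by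
    rintro ⟨r, hr⟩
    have e1 : η ^ m = (η ^ r) ^ 2 := by rw [hr, zpow_add, pow_two]
    rw [e1] at hm
    rcases hm with h | h
    · have := congrArg (fun u : (𝓞 k)ˣ => (u : 𝓞 k)) h
      simp only [ep, Units.val_pow_eq_pow_val] at this
      exact (not_sq hk hp _).1 this.symm
    · have := congrArg (fun u : (𝓞 k)ˣ => (u : 𝓞 k)) h
      simp only [ep, Units.val_pow_eq_pow_val, Units.val_neg] at this
      exact (not_sq hk hp ((η ^ r : (𝓞 k)ˣ) : 𝓞 k)).2 (by rw [this, neg_neg])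
  obtain ⟨n, hn⟩ := hη x
  by_cases hne : Even n
  · obtain ⟨r, hr⟩ := hne
    have e1 : η ^ n = (η ^ r) ^ 2 := by rw [hr, zpow_add, pow_two]
    rw [e1] at hn
    exact ⟨η ^ r, by tauto⟩
  · obtain ⟨r, hr⟩ : Even (n - m) := by
      rw [Int.even_sub]
      tauto
    have e1 : η ^ n = η ^ m * (η ^ r) ^ 2 := by
      rw [← zpow_natCast, ← zpow_mul, ← zpow_add]
      congr 1
      push_cast
      omega
    refine ⟨η ^ r, ?_⟩
    rcases hm with h1 | h1 <;> rcases hn with h2 | h2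
    · right; right; left
      rw [h2, e1, h1]
    · right; right; right
      rw [h2, e1, h1]
    · right; right; right
      rw [h2, e1, h1]
      simp
    · right; right; left
      rw [h2, e1, h1]
      simp

/-- Elements with even valuations. -/
lemma decomp [IsPrincipalIdealRing (𝓞 k)] (b : 𝓞 k) :
    b ≠ 0 → (∀ v : HeightOneSpectrum (𝓞 k), IsSquare (v.intValuation b)) →
    ∃ (w : (𝓞 k)ˣ) (j : 𝓞 k), b = w * j ^ 2 := by
  induction b using (IsWellFounded.wf (r := DvdNotUnit (α := 𝓞 k))).induction with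
  | _ b ih => ?_
  intro hb0 hb
  by_cases hu : IsUnit b
  · obtain ⟨w, hw⟩ := hu
    exact ⟨w, 1, by simp [hw]⟩
  obtain ⟨q, hq, b', rfl⟩ := WfDvdMonoid.exists_irreducible_factor hu hb0
  have hqp : Prime q := hq.prime
  have hb'0 : b' ≠ 0 := right_ne_zero_of_mul hb0
  have hq0 : q ≠ 0 := hqp.ne_zero
  let v : HeightOneSpectrum (𝓞 k) :=
    ⟨Ideal.span {q}, (Ideal.span_singleton_prime hq0).2 hqp, by simpa using hq0⟩
  have hdvd : q ∣ b' := by
    by_contra hnd
    have h1 := hb v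
    rw [map_mul, HeightOneSpectrum.intValuation_singleton v hq0 rfl] at h1
    have h3 : v.intValuation b' = 1 := by
      rw [HeightOneSpectrum.intValuation_eq_one_iff]
      intro h
      exact hnd (Ideal.mem_span_singleton.1 h)
    rw [h3, mul_one] at h1
    obtain ⟨r, hr⟩ := h1
    have hr0 : r ≠ 0 := by
      rintro rfl
      simp at hr
    obtain ⟨n, rfl⟩ : ∃ n : ℤ, r = WithZero.exp n := ⟨WithZero.log r, by rw [WithZero.exp_log hr0]⟩
    rw [← WithZero.exp_add, WithZero.exp_inj] at hr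
    omega
  obtain ⟨b'', rfl⟩ := hdvd
  have hb''0 : b'' ≠ 0 := right_ne_zero_of_mul hb'0
  have hev : ∀ v' : HeightOneSpectrum (𝓞 k), IsSquare (v'.intValuation b'') := by
    intro v'
    obtain ⟨r, hr⟩ := hb v'
    rw [map_mul, map_mul, ← mul_assoc] at hr
    have ha := HeightOneSpectrum.intValuation_ne_zero v' q hq0
    refine ⟨r / v'.intValuation q, ?_⟩
    rw [div_mul_div_comm, ← hr, mul_comm (v'.intValuation q * v'.intValuation q), mul_div_assoc,
      div_self (mul_ne_zero ha ha), mul_one]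
  have hdn : DvdNotUnit b'' (q * (q * b'')) :=
    ⟨hb''0, q * q, fun h => hqp.not_isUnit (isUnit_of_mul_isUnit_left h), by ring⟩
  obtain ⟨w, j, hwk⟩ := ih b'' hdn hb''0 hev
  refine ⟨w, q * j, ?_⟩
  rw [hwk]
  ring

end Cbrt

open Cbrt in
theorem J1 (k : Type) [Field k] [NumberField k] (hk : Module.finrank ℚ k = 3) (π : k)
    (hπ : π ^ 3 = 2) (δ : k) (hδ : δ ≠ 0) (hN : ∃ r : ℚ, Algebra.norm ℚ δ = r ^ 2)
    (hv : ∀ P : HeightOneSpectrum (𝓞 k), ∃ n : ℤ, P.valuation k δ = WithZero.exp (2 * n)) :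
    ∃ t : k, δ = t ^ 2 ∨ δ = (π - 1) * t ^ 2 := by
  have hint : IsIntegral ℤ π := ⟨Polynomial.X ^ 3 - Polynomial.C 2,
    Polynomial.monic_X_pow_sub_C 2 (by norm_num), by simp [hπ]⟩
  let p : 𝓞 k := ⟨π, hint⟩
  have hp : p ^ 3 = 2 := by
    apply RingOfIntegers.ext
    push_cast
    exact hπ
  have hpπ : algebraMap (𝓞 k) k p = π := rfl
  have := pid hk hp
  obtain ⟨x, y, hy, rfl⟩ := IsFractionRing.div_surjective (A := 𝓞 k) δ
  have hy0 : y ≠ 0 := nonZeroDivisors.ne_zero hy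
  have hyX : (algebraMap (𝓞 k) k y) ≠ 0 := by simpa using hy0
  have hx0 : x ≠ 0 := by
    rintro rfl
    simp at hδ
  have hba : (algebraMap (𝓞 k) k (x * y)) = (algebraMap (𝓞 k) k x / algebraMap (𝓞 k) k y) *
      (algebraMap (𝓞 k) k y) ^ 2 := by
    rw [map_mul]
    field_simp
  obtain ⟨w, j, hw⟩ := decomp (x * y) (mul_ne_zero hx0 hy0) (by
    intro v
    rw [← HeightOneSpectrum.valuation_of_algebraMap (K := k)]
    change IsSquare (v.valuation k (algebraMap (𝓞 k) k (x * y)))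
    rw [hba, map_mul, map_pow]
    obtain ⟨n, hn⟩ := hv v
    rw [hn]
    refine IsSquare.mul ⟨WithZero.exp n, ?_⟩ (IsSquare.sq _)
    rw [← WithZero.exp_add]
    congr 1
    ring)
  obtain ⟨s, hs⟩ := units_cls hk hp w
  have hj0 : j ≠ 0 := by
    rintro rfl
    apply mul_ne_zero hx0 hy0
    rw [hw]; ring
  -- the parameter
  set t : k := algebraMap (𝓞 k) k s * algebraMap (𝓞 k) k j / algebraMap (𝓞 k) k y with ht
  have ht0 : t ≠ 0 := by
    rw [ht]
    refine div_ne_zero (mul_ne_zero ?_ (by simpa using hj0)) hyX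
    simp
  have hw' : (algebraMap (𝓞 k) k x) * (algebraMap (𝓞 k) k y) =
      algebraMap (𝓞 k) k w * (algebraMap (𝓞 k) k j) ^ 2 := by
    rw [← map_mul, hw]
    simp
  have hδt : ∀ c : k, algebraMap (𝓞 k) k w = c * (algebraMap (𝓞 k) k s) ^ 2 →
      algebraMap (𝓞 k) k x / algebraMap (𝓞 k) k y = c * t ^ 2 := by
    intro c hc
    rw [ht, div_eq_iff hyX, div_pow, mul_pow]
    rw [hc] at hw'
    field_simp
    linear_combination hw'
  obtain ⟨r, hr⟩ := hN
  -- the norm is positive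
  have hNt : 0 < (Algebra.norm ℚ t) ^ 2 := by
    have : Algebra.norm ℚ t ≠ 0 := Algebra.norm_ne_zero_iff.2 ht0
    positivity
  have hneg : Algebra.norm ℚ (-1 : k) = -1 := by
    have := Algebra.norm_algebraMap (S := k) (-1 : ℚ)
    rw [hk] at this
    have e : ((-1 : ℚ)) ^ 3 = -1 := by norm_num
    rw [e] at this
    simpa using this
  rcases hs with h | h | h | h
  · refine ⟨t, Or.inl ?_⟩
    have := hδt 1 (by rw [h]; simp)
    rw [this, one_mul]
  · exfalso
    have h2 := hδt (-1) (by rw [h]; simp)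
    rw [h2, map_mul, map_pow, hneg] at hr
    nlinarith [sq_nonneg r]
  · refine ⟨t, Or.inr ?_⟩
    exact hδt (π - 1) (by rw [h, Units.val_mul, map_mul, Units.val_pow_eq_pow_val, map_pow]; simp [ep, hpπ])
  · exfalso
    have h2 := hδt (-1 * (π - 1)) (by
      rw [h, Units.val_neg, Units.val_mul, map_neg, map_mul, Units.val_pow_eq_pow_val, map_pow]
      simp only [ep, map_sub, hpπ, map_one]
      ring)
    rw [h2, map_mul, map_mul, map_pow, hneg, norm_pi_sub_one hk hπ] at hr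
    nlinarith [sq_nonneg r]

end Pool.Agent.Y180
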