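import Pool.Agent.Y19.QT.Defs

/-!
The Dirichlet inverse of `λ`.
-/

set_option autoImplicit false

namespace Pool.Agent.Y180.QT12b1

open Pool.Agent.Y19.QT
open Finset

/-- the values at prime powers -/
theorem lam_pow {Q : ℕ} {lam : ℕ → ℝ} (H : Hecke Q lam) {p : ℕ} (hp : p.Prime) (k : ℕ) :
    |lam (p ^ k)| ≤ (k : ℝ) + 1 := by
  by_cases hQ : p ∣ Q
  · cases k with
    | zero => simp [H.one]
    | succ k =>
      rw [H.bad p k hp hQ, abs_zero]
      positivity
  · -- `lam p = α + β`, `α β = 1`, `|α| = |β| = 1`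
    have hb := abs_le.1 (H.bound p hp)
    obtain ⟨θ, hθ⟩ : ∃ θ : ℝ, lam p = 2 * Real.cos θ := by
      refine ⟨Real.arccos (lam p / 2), ?_⟩
      rw [Real.cos_arccos (by linarith [hb.1]) (by linarith [hb.2])]
      ring
    obtain ⟨α, hα⟩ : ∃ α : ℂ, α = Complex.exp ((θ : ℂ) * Complex.I) := ⟨_, rfl⟩
    obtain ⟨β, hβ⟩ : ∃ β : ℂ, β = Complex.exp (-((θ : ℂ) * Complex.I)) := ⟨_, rfl⟩
    have hαβ : α * β = 1 := by rw [hα, hβ, ← Complex.exp_add, add_neg_cancel, Complex.exp_zero]
    have hsum : α + β = (lam p : ℂ) := by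
      rw [hθ, hα, hβ]
      push_cast
      rw [Complex.cos, ← neg_mul]
      ring
    have hnα : ‖α‖ = 1 := by rw [hα, Complex.norm_exp_ofReal_mul_I]
    have hnβ : ‖β‖ = 1 := by
      rw [hβ, show -((θ : ℂ) * Complex.I) = ((-θ : ℝ) : ℂ) * Complex.I by push_cast; ring,
        Complex.norm_exp_ofReal_mul_I]
    have key : ∀ k, (lam (p ^ k) : ℂ) = ∑ j ∈ range (k + 1), α ^ j * β ^ (k - j) ∧
        (lam (p ^ (k + 1)) : ℂ) = ∑ j ∈ range (k + 2), α ^ j * β ^ (k + 1 - j) := by
      intro k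
      induction k with
      | zero =>
        refine ⟨by simp [H.one], ?_⟩
        rw [zero_add, pow_one, ← hsum, sum_range_succ, sum_range_one]
        simp [add_comm]
      | succ k ih =>
        refine ⟨ih.2, ?_⟩
        have h1 := H.hrec p k hp hQ
        have h2 : (lam (p ^ (k + 1 + 1)) : ℂ) = lam p * lam (p ^ (k + 1)) - lam (p ^ k) := by
          exact_mod_cast h1
        rw [h2, ← hsum, ih.1, ih.2]
        -- `(α + β) S_{k+1} - S_k = S_{k+2}`
        have e1 : ∑ j ∈ range (k + 3), α ^ j * β ^ (k + 2 - j) =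
            α * (∑ j ∈ range (k + 2), α ^ j * β ^ (k + 1 - j)) + β ^ (k + 2) := by
          rw [sum_range_succ', mul_sum]
          congr 1
          · refine sum_congr rfl fun j _ => ?_
            rw [show k + 2 - (j + 1) = k + 1 - j by omega, pow_succ]
            ring
          · simp
        have e2 : β * (∑ j ∈ range (k + 2), α ^ j * β ^ (k + 1 - j)) =
            β ^ (k + 2) + α * β * ∑ j ∈ range (k + 1), α ^ j * β ^ (k - j) := by
          rw [sum_range_succ', mul_add, mul_sum, mul_sum, add_comm]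
          congr 1
          · simp only [pow_zero, Nat.sub_zero, one_mul]
            ring
          · refine sum_congr rfl fun j _ => ?_
            rw [show k + 1 - (j + 1) = k - j by omega, pow_succ]
            ring
        rw [hαβ, one_mul] at e2
        rw [show k + 1 + 2 = k + 3 by ring, show k + 1 + 1 = k + 2 by ring, e1, add_mul, e2]
        ring
    have h1 := (key k).1
    have h2 : ‖(lam (p ^ k) : ℂ)‖ ≤ ∑ j ∈ range (k + 1), (1 : ℝ) := by
      rw [h1]
      refine (norm_sum_le _ _).trans (sum_le_sum fun j _ => ?_)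
      rw [norm_mul, norm_pow, norm_pow, hnα, hnβ, one_pow, one_pow, one_mul]
    rw [Complex.norm_real, Real.norm_eq_abs] at h2
    simpa using h2

/-- the local factors of `muE` -/
noncomputable def loc (Q : ℕ) (lam : ℕ → ℝ) (p k : ℕ) : ℝ :=
  if k = 1 then -lam p else if k = 2 ∧ ¬ p ∣ Q then 1 else 0

theorem loc_bound {Q : ℕ} {lam : ℕ → ℝ} (H : Hecke Q lam) {p : ℕ} (hp : p.Prime) (k : ℕ) :
    |loc Q lam p k| ≤ (k : ℝ) + 1 := by
  unfold loc
  split_ifs with h1 h2
  · rw [h1, abs_neg]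
    refine (H.bound p hp).trans ?_
    norm_num
  · rw [h2.1]
    norm_num
  · rw [abs_zero]
    positivity

theorem muE_def {Q : ℕ} {lam : ℕ → ℝ} {n : ℕ} (hn : n ≠ 0) :
    muE Q lam n = n.factorization.prod (loc Q lam) := by
  unfold muE
  rw [if_neg hn]
  rfl

theorem muE_mul (Q : ℕ) (lam : ℕ → ℝ) (m n : ℕ) (h : m.Coprime n) :
    muE Q lam (m * n) = muE Q lam m * muE Q lam n := by
  by_cases hm : m = 0
  · subst hm
    simp [muE]
  by_cases hn : n = 0
  · subst hn
    simp [muE]
  rw [muE_def (mul_ne_zero hm hn), muE_def hm, muE_def hn, Nat.factorization_mul_of_coprime h]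
  refine Finsupp.prod_add_index_of_disjoint ?_ _
  rw [Nat.support_factorization, Nat.support_factorization]
  exact h.disjoint_primeFactors

theorem muE_one (Q : ℕ) (lam : ℕ → ℝ) : muE Q lam 1 = 1 := by
  rw [muE_def one_ne_zero]
  simp

theorem muE_pow {Q : ℕ} {lam : ℕ → ℝ} {p : ℕ} (hp : p.Prime) {k : ℕ} (hk : k ≠ 0) :
    muE Q lam (p ^ k) = loc Q lam p k := by
  rw [muE_def (pow_ne_zero _ hp.ne_zero), hp.factorization_pow, Finsupp.prod,
    Finsupp.support_single_ne_zero _ hk, prod_singleton, Finsupp.single_eq_same]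

theorem bound_of_mult {f : ℕ → ℝ} (h0 : f 0 = 0) (h1 : f 1 = 1)
    (hm : ∀ m n : ℕ, m.Coprime n → f (m * n) = f m * f n)
    (hp : ∀ p k : ℕ, p.Prime → |f (p ^ k)| ≤ (k : ℝ) + 1) (n : ℕ) :
    |f n| ≤ (n.divisors.card : ℝ) := by
  by_cases hn : n = 0
  · rw [hn, h0, abs_zero]
    positivity
  rw [Nat.multiplicative_factorization f hm h1 hn, Finsupp.prod, abs_prod, Nat.card_divisors hn]
  push_cast
  rw [Nat.support_factorization]
  refine prod_le_prod (fun p _ => abs_nonneg _) fun p hp' => ?_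
  exact hp p _ (Nat.prime_of_mem_primeFactors hp')

/-- `λ` as an arithmetic function -/
noncomputable def La (lam : ℕ → ℝ) (h0 : lam 0 = 0) : ArithmeticFunction ℝ := ⟨lam, h0⟩

/-- `μ_E` as an arithmetic function -/
noncomputable def Mu (Q : ℕ) (lam : ℕ → ℝ) : ArithmeticFunction ℝ := ⟨muE Q lam, by simp [muE]⟩

theorem conv {Q : ℕ} {lam : ℕ → ℝ} (H : Hecke Q lam) : Mu Q lam * La lam H.zero = 1 := by
  have h1 : (La lam H.zero).IsMultiplicative := ⟨H.one, fun {m n} h => H.mul m n h⟩
  have h2 : (Mu Q lam).IsMultiplicative := ⟨muE_one Q lam, fun {m n} h => muE_mul Q lam m n h⟩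
  rw [ArithmeticFunction.IsMultiplicative.eq_iff_eq_on_prime_powers _ (h2.mul h1) _
    ArithmeticFunction.isMultiplicative_one]
  intro p k hp
  rw [ArithmeticFunction.mul_apply, Nat.sum_divisorsAntidiagonal
    (f := fun a b => Mu Q lam a * La lam H.zero b)]
  rw [Nat.divisors_prime_pow hp, sum_map]
  simp only [Function.Embedding.coeFn_mk]
  have hval : ∀ j, Mu Q lam (p ^ j) = if j = 0 then 1 else loc Q lam p j := by
    intro j
    by_cases hj : j = 0
    · rw [if_pos hj, hj, pow_zero]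
      exact muE_one Q lam
    · rw [if_neg hj]
      exact muE_pow hp hj
  rcases Nat.lt_or_ge k 1 with hk | hk
  · obtain rfl : k = 0 := by omega
    have h3 : La lam H.zero 1 = 1 := H.one
    simp [hval, h3]
  · rw [ArithmeticFunction.one_apply_ne (by
      intro h
      have := Nat.one_lt_pow (by omega) hp.one_lt (n := k)
      omega)]
    have hdiv : ∀ j ∈ range (k + 1), Mu Q lam (p ^ j) * La lam H.zero (p ^ k / p ^ j) =
        (if j = 0 then 1 else loc Q lam p j) * lam (p ^ (k - j)) := by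
      intro j hj
      rw [hval, Nat.pow_div (by have := mem_range.1 hj; omega) hp.pos]
      rfl
    rw [sum_congr rfl hdiv]
    rcases Nat.lt_or_ge k 2 with hk2 | hk2
    · obtain rfl : k = 1 := by omega
      rw [sum_range_succ, sum_range_one]
      simp [loc, H.one]
    · obtain ⟨m, rfl⟩ : ∃ m, k = m + 2 := ⟨k - 2, by omega⟩
      rw [sum_range_succ', sum_range_succ', sum_range_succ']
      have hz : ∑ j ∈ range m, (if j + 1 + 1 + 1 = 0 then 1 else loc Q lam p (j + 1 + 1 + 1)) *
          lam (p ^ (m + 2 - (j + 1 + 1 + 1))) = 0 := by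
        refine sum_eq_zero fun j _ => ?_
        rw [if_neg (by omega)]
        unfold loc
        rw [if_neg (by omega), if_neg (by omega), zero_mul]
      rw [hz]
      have e1 : m + 2 - (0 + 1 + 1) = m := by omega
      have e2 : m + 2 - (0 + 1) = m + 1 := by omega
      have e3 : loc Q lam p (0 + 1) = -lam p := by simp [loc]
      have e4 : loc Q lam p (0 + 1 + 1) = if p ∣ Q then 0 else 1 := by
        unfold loc
        by_cases hQ : p ∣ Q <;> simp [hQ]
      rw [e1, e2, if_neg (by omega), if_neg (by omega), if_pos rfl, one_mul, Nat.sub_zero, e3, e4]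
      by_cases hQ : p ∣ Q
      · rw [if_pos hQ, H.bad p (m + 1) hp hQ, H.bad p m hp hQ]
        ring
      · rw [if_neg hQ, H.hrec p m hp hQ]
        ring

/-- T12b1: `μ_E * λ = 1` and bounds -/
theorem T12b1 (Q : ℕ) (lam : ℕ → ℝ) (H : Hecke Q lam) :
    (∀ n : ℕ, 1 ≤ n → ∑ x ∈ n.divisorsAntidiagonal, muE Q lam x.1 * lam x.2 = if n = 1 then 1 else 0) ∧
    (∀ n : ℕ, |lam n| ≤ (n.divisors.card : ℝ)) ∧ (∀ n : ℕ, |muE Q lam n| ≤ (n.divisors.card : ℝ)) ∧
    (∀ m n : ℕ, m.Coprime n → muE Q lam (m * n) = muE Q lam m * muE Q lam n) := by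
  refine ⟨fun n _ => ?_, bound_of_mult H.zero H.one H.mul fun p k hp => lam_pow H hp k,
    bound_of_mult (by simp [muE]) (muE_one Q lam) (muE_mul Q lam) fun p k hp => ?_,
    muE_mul Q lam⟩
  · have h1 : (Mu Q lam * La lam H.zero) n = (1 : ArithmeticFunction ℝ) n := by rw [conv H]
    rw [ArithmeticFunction.mul_apply, ArithmeticFunction.one_apply] at h1
    exact h1
  · by_cases hk : k = 0
    · rw [hk, pow_zero, muE_one]
      norm_num
    · rw [muE_pow hp hk]
      exact loc_bound H hp k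

end Pool.Agent.Y180.QT12b1
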