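import Pool.Agent.TH949.LT.Cross
import Pool.Agent.H336R4.PF.R1
import Pool.Agent.H402R2.T4bA

/-!
Shift of a vertical line of integration across a simple pole at `0`, and the decay of the Gamma
function.
-/

set_option autoImplicit false

namespace Pool.Agent.Y180.QTcross

open Complex MeasureTheory Filter Topology Set

theorem exp_sq_le {a b η : ℝ} (z : ℂ) (h1 : a ≤ z.re) (h2 : z.re ≤ b) :
    ‖cexp (z ^ 2)‖ ≤ Real.exp (a ^ 2 + b ^ 2 + η ^ 2) * Real.exp (-η * |z.im|) := by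
  rw [Pool.Agent.TH949.LT.norm_exp_sq, ← Real.exp_add]
  refine Real.exp_le_exp.2 ?_
  have h3 : z.re ^ 2 ≤ a ^ 2 + b ^ 2 := by
    rcases le_total 0 z.re with h | h
    · nlinarith [sq_nonneg a]
    · nlinarith [sq_nonneg b]
  have h4 : -(z.im ^ 2) ≤ η ^ 2 + -η * |z.im| := by
    rw [← sq_abs z.im]
    nlinarith [sq_nonneg (|z.im| - η / 2), sq_nonneg η]
  linarith

/-- shift across a simple pole at `0` -/
theorem cross {H : ℂ → ℂ} {U : Set ℂ} {a b C η : ℝ} (hU : IsOpen U) (ha : a < 0) (hb : 0 < b)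
    (hη : 0 < η) (hsub : ∀ z : ℂ, a ≤ z.re → z.re ≤ b → z ∈ U) (hd : DifferentiableOn ℂ H U)
    (hbd : ∀ z : ℂ, a ≤ z.re → z.re ≤ b → ‖H z‖ ≤ C * Real.exp (-η * |z.im|)) :
    (∫ y : ℝ, H (b + y * I) / (b + y * I)) - ∫ y : ℝ, H (a + y * I) / (a + y * I) =
      2 * Real.pi * H 0 := by
  have h0U : (0 : ℂ) ∈ U := hsub 0 (by simpa using ha.le) (by simpa using hb.le)
  set G : ℂ → ℂ := fun z => H z - H 0 * cexp (z ^ 2) with hG
  have hGd : DifferentiableOn ℂ G U := hd.sub (by fun_prop)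
  have hgd : DifferentiableOn ℂ (dslope G 0) U :=
    (Complex.differentiableOn_dslope (hU.mem_nhds h0U)).2 hGd
  have hG0 : G 0 = 0 := by simp [hG]
  have hC0 : 0 ≤ C := by
    have h1 := (norm_nonneg _).trans (hbd 0 (by simpa using ha.le) (by simpa using hb.le))
    simpa using h1
  obtain ⟨B1, hB1⟩ : ∃ B1 : ℝ, ∀ z : ℂ, a ≤ z.re → z.re ≤ b → |z.im| ≤ 1 →
      ‖dslope G 0 z‖ ≤ B1 := by
    have hcomp : IsCompact ((Icc a b) ×ℂ (Icc (-1 : ℝ) 1)) := isCompact_Icc.reProdIm isCompact_Icc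
    obtain ⟨B1, hB1⟩ := hcomp.exists_bound_of_continuousOn (f := dslope G 0)
      (hgd.continuousOn.mono fun z hz => by
        rw [Complex.mem_reProdIm] at hz
        exact hsub z hz.1.1 hz.1.2)
    refine ⟨B1, fun z h1 h2 h3 => hB1 z ?_⟩
    rw [Complex.mem_reProdIm]
    exact ⟨⟨h1, h2⟩, abs_le.1 h3⟩
  have hB10 : 0 ≤ B1 := (norm_nonneg _).trans
    (hB1 0 (by simpa using ha.le) (by simpa using hb.le) (by simp))
  obtain ⟨B2, hB2, hB20⟩ : ∃ B2 : ℝ, (∀ z : ℂ, a ≤ z.re → z.re ≤ b →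
      ‖G z‖ ≤ B2 * Real.exp (-η * |z.im|)) ∧ 0 ≤ B2 := by
    refine ⟨C + ‖H 0‖ * Real.exp (a ^ 2 + b ^ 2 + η ^ 2), fun z h1 h2 => ?_, by positivity⟩
    have h3 := hbd z h1 h2
    have h4 := exp_sq_le (η := η) z h1 h2
    calc ‖G z‖ ≤ ‖H z‖ + ‖H 0 * cexp (z ^ 2)‖ := norm_sub_le _ _
      _ = ‖H z‖ + ‖H 0‖ * ‖cexp (z ^ 2)‖ := by rw [norm_mul]
      _ ≤ C * Real.exp (-η * |z.im|) + ‖H 0‖ * (Real.exp (a ^ 2 + b ^ 2 + η ^ 2) *
          Real.exp (-η * |z.im|)) := by gcongr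
      _ = _ := by ring
  have hgb : ∀ z : ℂ, a ≤ z.re → z.re ≤ b →
      ‖dslope G 0 z‖ ≤ (B1 * Real.exp η + B2) * Real.exp (-η * |z.im|) := by
    intro z h1 h2
    rcases le_or_gt |z.im| 1 with h3 | h3
    · have h4 := hB1 z h1 h2 h3
      have h5 : 1 ≤ Real.exp η * Real.exp (-η * |z.im|) := by
        rw [← Real.exp_add]
        refine Real.one_le_exp ?_
        nlinarith [abs_nonneg z.im]
      have h6 : B1 ≤ B1 * (Real.exp η * Real.exp (-η * |z.im|)) :=
        le_mul_of_one_le_right hB10 h5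
      have h7 : 0 ≤ B2 * Real.exp (-η * |z.im|) := by positivity
      nlinarith
    · have hz : z ≠ 0 := by
        intro h
        rw [h] at h3
        norm_num at h3
      have hz1 : 1 ≤ ‖z‖ := h3.le.trans (Complex.abs_im_le_norm z)
      rw [dslope_of_ne _ hz, slope_def_field, hG0, sub_zero, sub_zero, norm_div]
      have h4 := (div_le_self (norm_nonneg (G z)) hz1).trans (hB2 z h1 h2)
      have h7 : 0 ≤ B1 * Real.exp η * Real.exp (-η * |z.im|) := by positivity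
      nlinarith
  have hda : ∀ z : ℂ, a ≤ z.re → z.re ≤ b → DifferentiableAt ℂ (dslope G 0) z :=
    fun z h1 h2 => hgd.differentiableAt (hU.mem_nhds (hsub z h1 h2))
  have hshift := H336R4.PF.vshift hη (ha.le.trans hb.le) hda hgb
  have hline : ∀ c : ℝ, c ≠ 0 → a ≤ c → c ≤ b → ∫ y : ℝ, H (c + y * I) / (c + y * I) =
      (∫ y : ℝ, dslope G 0 (c + y * I)) +
        H 0 * ∫ y : ℝ, cexp ((c + y * I) ^ 2) / (c + y * I) := by
    intro c hc h1 h2
    rw [← integral_const_mul, ← integral_add]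
    · congr 1
      ext y
      have hne : (c : ℂ) + y * I ≠ 0 := by
        intro h
        have := congrArg Complex.re h
        simp at this
        exact hc this
      rw [dslope_of_ne _ hne, slope_def_field, hG0, sub_zero, sub_zero]
      simp only [hG]
      field_simp
      ring
    · exact H336R4.PF.vint hη hda hgb h1 h2
    · exact (Pool.Agent.TH949.LT.E_int hc).const_mul _
  rw [hline b hb.ne' (ha.le.trans hb.le) le_rfl, hline a ha.ne le_rfl (ha.le.trans hb.le),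
    Pool.Agent.TH949.LT.E_pos hb, Pool.Agent.TH949.LT.E_neg ha, hshift]
  ring

/-- the decay of the Gamma function -/
theorem gamma_decay : ∃ C : ℝ, 0 < C ∧ ∀ z : ℂ, 3 / 4 ≤ z.re → z.re ≤ 3 →
    ‖Complex.Gamma z‖ ≤ C * Real.exp (-(5 / 4) * |z.im|) := by
  have hcont : ContinuousOn Real.Gamma (Icc (3 / 4 : ℝ) 3) := by
    intro x hx
    refine (Real.differentiableAt_Gamma fun m h => ?_).continuousAt.continuousWithinAt
    have h1 := hx.1
    rw [h] at h1
    have : (0 : ℝ) ≤ m := by positivity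
    linarith
  obtain ⟨B, hB⟩ := isCompact_Icc.exists_bound_of_continuousOn hcont
  have hθ : (5 / 4 : ℝ) < Real.pi / 2 := by linarith [Real.pi_gt_d2]
  have hc : 0 < Real.cos (5 / 4) := Real.cos_pos_of_mem_Ioo ⟨by linarith [Real.pi_pos], hθ⟩
  have hB0 : 0 ≤ B := (norm_nonneg _).trans (hB 1 ⟨by norm_num, by norm_num⟩)
  refine ⟨B / Real.cos (5 / 4) ^ (3 : ℝ) + 1, by positivity, fun z h1 h2 => ?_⟩
  have h3 := Pool.Agent.Helper242.KK.norm_Gamma_le_of_angle (σ := z.re) (v := z.im)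
    (θ := 5 / 4) (by linarith) (by norm_num) hθ
  rw [Complex.re_add_im] at h3
  refine h3.trans ?_
  have h4 : Real.Gamma z.re ≤ B := (le_abs_self _).trans (hB z.re ⟨h1, h2⟩)
  have h5 : Real.cos (5 / 4) ^ (3 : ℝ) ≤ Real.cos (5 / 4) ^ z.re :=
    Real.rpow_le_rpow_of_exponent_ge hc (Real.cos_le_one _) h2
  have h6 : 0 < Real.cos (5 / 4) ^ (3 : ℝ) := by positivity
  have hG : 0 < Real.Gamma z.re := Real.Gamma_pos_of_pos (by linarith)
  calc Real.exp (-(5 / 4) * |z.im|) * Real.Gamma z.re / Real.cos (5 / 4) ^ z.re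
      = Real.Gamma z.re / Real.cos (5 / 4) ^ z.re * Real.exp (-(5 / 4) * |z.im|) := by ring
    _ ≤ B / Real.cos (5 / 4) ^ (3 : ℝ) * Real.exp (-(5 / 4) * |z.im|) := by
        gcongr
    _ ≤ _ := by
        refine mul_le_mul_of_nonneg_right ?_ (Real.exp_pos _).le
        linarith

end Pool.Agent.Y180.QTcross
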