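import Pool.Agent.Y180.QT12b2b
import Pool.Agent.Y180.QTcross

/-!
Smoothed approximation of the mollified `L`-function to the right of `1/2` (T12b2).
-/

set_option autoImplicit false

namespace Pool.Agent.Y180.QT12b2

open Complex MeasureTheory Filter Topology
open Pool.Agent.Y19.QT
open Pool.Agent.H306R2.RZ (js)
open scoped ComplexConjugate

variable {Q : ℕ} {lam : ℕ → ℝ}

/-- the smoothed sum as an integral -/
theorem smooth_int {A : ℕ → ℝ} (hA0 : A 0 = 0) {δ Z : ℝ} (hδ : 0 < δ) (hZ : 1 ≤ Z)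
    (hA : LSeriesSummable (cx A) ((5 / 2 + δ : ℝ) : ℂ)) :
    Summable (fun n : ℕ => A n * (n : ℝ) ^ (-(1 / 2 + δ)) * Real.exp (-(n / Z))) ∧
    ∫ y : ℝ, (Z : ℂ) ^ (((2 : ℝ) : ℂ) + y * I) * Complex.Gamma (((2 : ℝ) : ℂ) + y * I) *
      LSeries (cx A) (1 / 2 + δ + (((2 : ℝ) : ℂ) + y * I)) =
      2 * Real.pi * ∑' n : ℕ, ((A n * (n : ℝ) ^ (-(1 / 2 + δ)) * Real.exp (-(n / Z)) : ℝ) : ℂ) := by
  have hZ0 : 0 < Z := by linarith
  have hsum : Summable (fun n : ℕ => |A n| * (n : ℝ) ^ (-(5 / 2 + δ))) := by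
    have h1 := hA.norm
    refine h1.congr fun n => ?_
    rw [LSeries.norm_term_eq]
    split_ifs with hn
    · rw [hn, hA0]
      simp
    · rw [cx, Complex.norm_real, Real.norm_eq_abs, Complex.ofReal_re,
        Real.rpow_neg (by positivity), div_eq_mul_inv]
  have hpow : ∀ n : ℕ, n ≠ 0 → (n : ℝ) ^ (-(1 / 2 + δ)) = (n : ℝ) ^ (-(5 / 2 + δ)) * (n : ℝ) ^ 2 := by
    intro n hn
    have hn0 : (0 : ℝ) < n := by exact_mod_cast Nat.pos_of_ne_zero hn
    rw [← Real.rpow_natCast (n : ℝ) 2, ← Real.rpow_add hn0]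
    congr 1
    push_cast
    ring
  constructor
  · refine Summable.of_norm_bounded (hsum.mul_left (2 * Z ^ 2)) fun n => ?_
    by_cases hn : n = 0
    · rw [hn, hA0]
      simp
    have hn0 : (0 : ℝ) < n := by exact_mod_cast Nat.pos_of_ne_zero hn
    rw [norm_mul, norm_mul, Real.norm_eq_abs, Real.norm_eq_abs, Real.norm_eq_abs, Real.abs_exp,
      abs_of_nonneg (by positivity : 0 ≤ (n : ℝ) ^ (-(1 / 2 + δ))), hpow n hn]
    have h1 : Real.exp (-(n / Z)) * (n : ℝ) ^ 2 ≤ 2 * Z ^ 2 := by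
      have h2 : (n / Z) ^ 2 / 2 ≤ Real.exp (n / Z) := by
        have := Real.quadratic_le_exp_of_nonneg (by positivity : 0 ≤ (n : ℝ) / Z)
        have h3 : 0 ≤ (n : ℝ) / Z := by positivity
        linarith
      rw [Real.exp_neg, inv_mul_eq_div, div_le_iff₀ (Real.exp_pos _)]
      have h4 : (n : ℝ) ^ 2 = 2 * Z ^ 2 * ((n / Z) ^ 2 / 2) := by
        field_simp
      rw [h4]
      exact mul_le_mul_of_nonneg_left h2 (by positivity)
    have h5 : 0 ≤ |A n| * (n : ℝ) ^ (-(5 / 2 + δ)) := by positivity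
    calc |A n| * ((n : ℝ) ^ (-(5 / 2 + δ)) * (n : ℝ) ^ 2) * Real.exp (-(n / Z))
        = |A n| * (n : ℝ) ^ (-(5 / 2 + δ)) * (Real.exp (-(n / Z)) * (n : ℝ) ^ 2) := by ring
      _ ≤ |A n| * (n : ℝ) ^ (-(5 / 2 + δ)) * (2 * Z ^ 2) := mul_le_mul_of_nonneg_left h1 h5
      _ = _ := by ring
  · set G : ℕ → ℝ → ℂ := fun n y => (A n : ℂ) * ((n : ℝ) ^ (-(1 / 2 + δ)) : ℝ) *
      ((1 / ((n / Z : ℝ) : ℂ)) ^ (((2 : ℝ) : ℂ) + y * I) *
        Complex.Gamma (((2 : ℝ) : ℂ) + y * I)) with hG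
    have hG0 : ∀ y, G 0 y = 0 := by
      intro y
      simp [hG, hA0]
    have hω : ∀ n : ℕ, n ≠ 0 → 0 < (((n / Z : ℝ) : ℂ)).re := by
      intro n hn
      have hn0 : (0 : ℝ) < n := by exact_mod_cast Nat.pos_of_ne_zero hn
      rw [Complex.ofReal_re]
      positivity
    have hGint : ∀ n, Integrable (G n) := by
      intro n
      by_cases hn : n = 0
      · rw [hn]
        have : G 0 = fun _ => 0 := funext hG0
        rw [this]
        exact integrable_zero _ _ _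
      · exact (Pool.Agent.H402R2.T4b.vint (hω n hn) (by norm_num : (0 : ℝ) < 2)).const_mul _
    obtain ⟨G2, hG2⟩ : ∃ G2, G2 = ∫ y : ℝ, ‖Complex.Gamma (((2 : ℝ) : ℂ) + y * I)‖ := ⟨_, rfl⟩
    have hGnorm : ∀ n, ∫ y, ‖G n y‖ = |A n| * (n : ℝ) ^ (-(5 / 2 + δ)) * (Z ^ 2 * G2) := by
      intro n
      by_cases hn : n = 0
      · rw [hn]
        simp [hG0, hA0]
      have hn0 : (0 : ℝ) < n := by exact_mod_cast Nat.pos_of_ne_zero hn
      have h1 : ∀ y, ‖G n y‖ = (|A n| * (n : ℝ) ^ (-(1 / 2 + δ)) * (Z / n) ^ 2) *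
          ‖Complex.Gamma (((2 : ℝ) : ℂ) + y * I)‖ := by
        intro y
        simp only [hG]
        have h2 : (1 / ((n / Z : ℝ) : ℂ)) = ((Z / n : ℝ) : ℂ) := by
          rw [← Complex.ofReal_one, ← Complex.ofReal_div, one_div_div]
        rw [norm_mul, norm_mul, norm_mul, Complex.norm_real, Complex.norm_real, Real.norm_eq_abs,
          Real.norm_eq_abs, abs_of_nonneg (by positivity : 0 ≤ (n : ℝ) ^ (-(1 / 2 + δ))), h2,
          Complex.norm_cpow_eq_rpow_re_of_pos (by positivity)]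
        have h3 : (((2 : ℝ) : ℂ) + y * I).re = 2 := by simp
        rw [h3, Real.rpow_two, mul_assoc, mul_assoc, mul_assoc]
      simp_rw [h1]
      rw [integral_const_mul, ← hG2, hpow n hn]
      field_simp
    have hGsum : Summable fun n => ∫ y, ‖G n y‖ := by
      simp_rw [hGnorm]
      exact hsum.mul_right _
    have hswap := integral_tsum_of_summable_integral_norm hGint hGsum
    have hval : ∀ n, ∫ y, G n y = 2 * Real.pi *
        ((A n * (n : ℝ) ^ (-(1 / 2 + δ)) * Real.exp (-(n / Z)) : ℝ) : ℂ) := by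
      intro n
      by_cases hn : n = 0
      · rw [hn]
        simp [hG0, hA0]
      simp only [hG]
      rw [integral_const_mul, Pool.Agent.H402R2.T4b.cahen (hω n hn) (by norm_num : (0 : ℝ) < 2),
        ← Complex.ofReal_neg, ← Complex.ofReal_exp]
      push_cast
      ring
    rw [← tsum_mul_left]
    simp_rw [← hval]
    rw [hswap]
    refine integral_congr_ae (Eventually.of_forall fun y => ?_)
    dsimp only
    have hLS : LSeries (cx A) (1 / 2 + δ + (((2 : ℝ) : ℂ) + y * I)) =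
        ∑' n, (A n : ℂ) * (n : ℂ) ^ (-(1 / 2 + δ + (((2 : ℝ) : ℂ) + y * I))) := (tsum_eq hA0 _).symm
    rw [hLS, ← tsum_mul_left]
    refine tsum_congr fun n => ?_
    by_cases hn : n = 0
    · rw [hn, hG0, hA0]
      simp
    have hn0 : (0 : ℝ) < n := by exact_mod_cast Nat.pos_of_ne_zero hn
    simp only [hG]
    have h2 : (1 / ((n / Z : ℝ) : ℂ)) = ((Z / n : ℝ) : ℂ) := by
      rw [← Complex.ofReal_one, ← Complex.ofReal_div, one_div_div]
    have hnC : (n : ℂ) ≠ 0 := by exact_mod_cast hn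
    rw [h2, Complex.ofReal_div, Complex.div_cpow_ofReal_nonneg hZ0.le hn0.le, neg_add,
      Complex.cpow_add _ _ hnC, Complex.ofReal_cpow hn0.le, Complex.cpow_neg (n : ℂ) (((2 : ℝ) : ℂ) + y * I)]
    push_cast
    ring

/-- T12b2: smoothed approximation of the mollified `L`-function to the right of `1/2` -/
theorem T12b2 {Q : ℕ} {lam : ℕ → ℝ} (T : Twists Q lam)
    (h8 : ∀ d : ℤ, Squarefree d → Differentiable ℂ (T.ell d) ∧
      (∀ s : ℂ, 2 < s.re → T.ell d s = ∑' n : ℕ, (T.cf d n : ℂ) * (n : ℂ) ^ (-s)) ∧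
      (∀ s : ℂ, T.ell d (conj s) = conj (T.ell d s)) ∧
      ∃ C : ℝ, ∀ s : ℂ, 1 / 4 ≤ s.re → s.re ≤ 3 →
        ‖T.ell d s‖ ≤ C * Real.exp (Real.pi / 32 * |s.im|)) :
    ∃ C : ℝ, 0 < C ∧
    ∀ (d : ℤ) (Y : ℕ) (Z δ : ℝ), Squarefree d → 1 ≤ Y → 1 ≤ Z → 0 < δ → δ ≤ 1 / 4 →
      ‖T.Lq d (1 / 2 + δ) * Mol Q lam Y d (1 / 2 + δ) - 1‖ ≤
        ‖∑' n : ℕ, if Y < n then ((cY Q lam Y n * js d n * (n : ℝ) ^ (-(1 / 2 + δ)) *
          Real.exp (-(n / Z)) : ℝ) : ℂ) else 0‖ + 1 / Z +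
        C / δ * Z ^ (-δ) * ∫ y : ℝ, ‖T.Lq d (1 / 2 + y * I)‖ * ‖Mol Q lam Y d (1 / 2 + y * I)‖ *
          Real.exp (-|y|) := by
  obtain ⟨CΓ, hCΓ, hΓ⟩ := QTcross.gamma_decay
  refine ⟨CΓ, hCΓ, fun d Y Z δ hd hY hZ hδ hδ4 => ?_⟩
  obtain ⟨hdiff, hser, -, C1, hC1⟩ := h8 d hd
  have hZ0 : 0 < Z := by linarith
  have hpi := Real.pi_pos
  have hpi4 := Real.pi_lt_four
  -- the function
  set F : ℂ → ℂ := fun s => T.Lq d s * Mol Q lam Y d s with hF
  have hLq : ∀ s, T.Lq d s = T.ell d s * Ep T d s := fun s => rfl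
  have hFd : DifferentiableOn ℂ F {s : ℂ | 1 / 4 < s.re} := by
    refine DifferentiableOn.mul ?_ (Mol_diff Q lam Y d).differentiableOn
    exact hdiff.differentiableOn.mul (Ep_diff T hd)
  obtain ⟨M1, hM1⟩ : ∃ M1, M1 = ∑ h ∈ Finset.Icc 1 Y, |muE Q lam h| := ⟨_, rfl⟩
  have hM10 : 0 ≤ M1 := by
    rw [hM1]
    exact Finset.sum_nonneg fun _ _ => abs_nonneg _
  have hC10 : 0 ≤ C1 := by
    have h1 := (norm_nonneg _).trans (hC1 1 (by norm_num) (by norm_num))
    simpa using h1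
  have hc0 : 0 ≤ T.c := by linarith [T.one_le_c]
  have hLqb : ∀ s : ℂ, 1 / 4 ≤ s.re → s.re ≤ 3 →
      ‖T.Lq d s‖ ≤ C1 * T.c * Real.exp (Real.pi / 32 * |s.im|) := by
    intro s h1 h2
    rw [hLq, norm_mul]
    calc ‖T.ell d s‖ * ‖Ep T d s‖ ≤ (C1 * Real.exp (Real.pi / 32 * |s.im|)) * T.c := by
          have := hC1 s h1 h2
          have := Ep_bound T hd h1
          gcongr
      _ = _ := by ring
  have hFb : ∀ s : ℂ, 1 / 4 ≤ s.re → s.re ≤ 3 →
      ‖F s‖ ≤ C1 * T.c * M1 * Real.exp (Real.pi / 32 * |s.im|) := by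
    intro s h1 h2
    simp only [hF]
    rw [norm_mul]
    calc ‖T.Lq d s‖ * ‖Mol Q lam Y d s‖ ≤ (C1 * T.c * Real.exp (Real.pi / 32 * |s.im|)) * M1 := by
          have h3 := hLqb s h1 h2
          have h4 : ‖Mol Q lam Y d s‖ ≤ M1 := by
            rw [hM1]
            exact Mol_bound Q lam Y d (by linarith)
          gcongr
      _ = _ := by ring
  -- the integrand
  set H : ℂ → ℂ := fun z => Complex.Gamma (z + 1) * F (1 / 2 + δ + z) * (Z : ℂ) ^ z with hH
  have hHdef : ∀ z, H z = Complex.Gamma (z + 1) * F (1 / 2 + δ + z) * (Z : ℂ) ^ z := fun z => rfl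
  have hZC : (Z : ℂ) ≠ 0 := by exact_mod_cast hZ0.ne'
  obtain ⟨η, hη⟩ : ∃ η : ℝ, η = 5 / 4 - Real.pi / 32 := ⟨_, rfl⟩
  have hη0 : 0 < η := by rw [hη]; linarith
  have hre : ∀ z : ℂ, (1 / 2 + δ + z : ℂ).re = 1 / 2 + δ + z.re := by
    intro z
    simp
  have him : ∀ z : ℂ, (1 / 2 + δ + z : ℂ).im = z.im := by
    intro z
    simp
  have hHd : DifferentiableOn ℂ H {z : ℂ | -(1 / 4) - δ < z.re ∧ -1 < z.re} := by
    intro z hz
    obtain ⟨hz1, hz2⟩ := hz
    have h1 : DifferentiableAt ℂ (fun z => Complex.Gamma (z + 1)) z := by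
      have h2 : DifferentiableAt ℂ Complex.Gamma (z + 1) := by
        refine Complex.differentiableAt_Gamma _ fun m h => ?_
        have h2 := congrArg Complex.re h
        simp at h2
        have : (0 : ℝ) ≤ m := by positivity
        linarith
      have h3 : DifferentiableAt ℂ (fun z : ℂ => z + 1) z := by fun_prop
      exact DifferentiableAt.comp z h2 h3
    have h2 : DifferentiableAt ℂ (fun z => F (1 / 2 + δ + z)) z := by
      have h3 : DifferentiableAt ℂ F (1 / 2 + δ + z) := by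
        refine hFd.differentiableAt
          ((isOpen_lt continuous_const Complex.continuous_re).mem_nhds ?_)
        show 1 / 4 < (1 / 2 + δ + z : ℂ).re
        rw [hre]
        linarith
      have h4 : DifferentiableAt ℂ (fun z : ℂ => (1 / 2 + δ + z : ℂ)) z := by fun_prop
      exact DifferentiableAt.comp z h3 h4
    have h3 : DifferentiableAt ℂ (fun z => (Z : ℂ) ^ z) z :=
      DifferentiableAt.const_cpow (by fun_prop) (Or.inl hZC)
    exact ((h1.mul h2).mul h3).differentiableWithinAt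
  have hHb : ∀ z : ℂ, -δ ≤ z.re → z.re ≤ 2 →
      ‖H z‖ ≤ CΓ * (C1 * T.c * M1) * Z ^ (2 : ℝ) * Real.exp (-η * |z.im|) := by
    intro z h1 h2
    simp only [hH]
    rw [norm_mul, norm_mul, Complex.norm_cpow_eq_rpow_re_of_pos hZ0]
    have h3 := hΓ (z + 1) (by rw [Complex.add_re, Complex.one_re]; linarith)
      (by rw [Complex.add_re, Complex.one_re]; linarith)
    rw [Complex.add_im, Complex.one_im, add_zero] at h3
    have h4 := hFb (1 / 2 + δ + z) (by rw [hre]; linarith) (by rw [hre]; linarith)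
    rw [him] at h4
    have h5 : Z ^ z.re ≤ Z ^ (2 : ℝ) := Real.rpow_le_rpow_of_exponent_le hZ h2
    calc ‖Complex.Gamma (z + 1)‖ * ‖F (1 / 2 + δ + z)‖ * Z ^ z.re
        ≤ (CΓ * Real.exp (-(5 / 4) * |z.im|)) * (C1 * T.c * M1 * Real.exp (Real.pi / 32 * |z.im|)) *
          Z ^ (2 : ℝ) := by gcongr
      _ = CΓ * (C1 * T.c * M1) * Z ^ (2 : ℝ) * (Real.exp (-(5 / 4) * |z.im|) *
          Real.exp (Real.pi / 32 * |z.im|)) := by ring
      _ = _ := by
          rw [← Real.exp_add, hη]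
          congr 2
          ring
  have hcross := QTcross.cross (H := H) (U := {z : ℂ | -(1 / 4) - δ < z.re ∧ -1 < z.re})
    (a := -δ) (b := 2) ((isOpen_lt continuous_const Complex.continuous_re).inter
      (isOpen_lt continuous_const Complex.continuous_re)) (by linarith) (by norm_num) hη0
    (fun z h1 h2 => ⟨by linarith, by linarith⟩) hHd hHb
  -- the line `Re z = 2`
  have hA := prod_summable T.hecke Y d (s := ((5 / 2 + δ : ℝ) : ℂ)) (by
    rw [Complex.ofReal_re]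
    linarith)
  obtain ⟨hsum, hint⟩ := smooth_int (A := fun n => cY Q lam Y n * js d n) (by simp [cY_zero]) hδ hZ
    hA
  have hne2 : ∀ y : ℝ, ((2 : ℝ) : ℂ) + y * I ≠ 0 := by
    intro y h
    have := congrArg Complex.re h
    simp at this
  have hneδ : ∀ y : ℝ, ((-δ : ℝ) : ℂ) + y * I ≠ 0 := by
    intro y h
    have := congrArg Complex.re h
    simp at this
    linarith
  have hR : ∫ y : ℝ, H (((2 : ℝ) : ℂ) + y * I) / (((2 : ℝ) : ℂ) + y * I) =
      2 * Real.pi * ∑' n : ℕ, ((cY Q lam Y n * js d n * (n : ℝ) ^ (-(1 / 2 + δ)) *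
        Real.exp (-(n / Z)) : ℝ) : ℂ) := by
    rw [← hint]
    refine integral_congr_ae (Eventually.of_forall fun y => ?_)
    dsimp only
    rw [hHdef, Complex.Gamma_add_one _ (hne2 y)]
    have h1 : F (1 / 2 + δ + (((2 : ℝ) : ℂ) + y * I)) =
        LSeries (cx fun n => cY Q lam Y n * js d n) (1 / 2 + δ + (((2 : ℝ) : ℂ) + y * I)) := by
      refine prod_eq T hd hser Y ?_
      rw [hre]
      simp
      linarith
    rw [h1]
    have := hne2 y
    field_simp
  have hH0 : H 0 = F (1 / 2 + δ) := by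
    simp [hH]
  rw [hR, hH0] at hcross
  set S : ℂ := ∑' n : ℕ, ((cY Q lam Y n * js d n * (n : ℝ) ^ (-(1 / 2 + δ)) *
        Real.exp (-(n / Z)) : ℝ) : ℂ) with hS
  set J : ℂ := ∫ y : ℝ, H (((-δ : ℝ) : ℂ) + y * I) / (((-δ : ℝ) : ℂ) + y * I) with hJ
  -- the bound for `J`
  set W : ℝ := ∫ y : ℝ, ‖T.Lq d (1 / 2 + y * I)‖ * ‖Mol Q lam Y d (1 / 2 + y * I)‖ *
          Real.exp (-|y|) with hW
  have hhalf : ∀ y : ℝ, (1 / 2 + y * I : ℂ).re = 1 / 2 := by
    intro y
    simp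
  have hhalf' : ∀ y : ℝ, (1 / 2 + y * I : ℂ).im = y := by
    intro y
    simp
  have hWint : Integrable fun y : ℝ => ‖T.Lq d (1 / 2 + y * I)‖ *
      ‖Mol Q lam Y d (1 / 2 + y * I)‖ * Real.exp (-|y|) := by
    have h1 : Integrable fun y : ℝ => C1 * T.c * M1 * Real.exp (-(1 - Real.pi / 32) * |y|) :=
      (H336R4.PF.integrable_exp_abs (by linarith)).const_mul _
    refine h1.mono' (Continuous.aestronglyMeasurable ?_) (Eventually.of_forall fun y => ?_)
    · have hc : Continuous fun y : ℝ => F (1 / 2 + y * I) := by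
        rw [continuous_iff_continuousAt]
        intro y
        have h2 : ContinuousAt F (1 / 2 + y * I) :=
          (hFd.differentiableAt ((isOpen_lt continuous_const Complex.continuous_re).mem_nhds (by
            show 1 / 4 < (1 / 2 + y * I : ℂ).re
            rw [hhalf]
            norm_num))).continuousAt
        exact ContinuousAt.comp (f := fun y : ℝ => (1 / 2 + y * I : ℂ)) h2 (by fun_prop)
      have h3 : (fun y : ℝ => ‖T.Lq d (1 / 2 + y * I)‖ * ‖Mol Q lam Y d (1 / 2 + y * I)‖ *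
          Real.exp (-|y|)) = fun y : ℝ => ‖F (1 / 2 + y * I)‖ * Real.exp (-|y|) := by
        funext y
        simp only [hF]
        rw [norm_mul]
      rw [h3]
      exact hc.norm.mul (by fun_prop)
    · have h2 := hFb (1 / 2 + y * I) (by rw [hhalf]; norm_num) (by rw [hhalf]; norm_num)
      rw [hhalf'] at h2
      simp only [hF] at h2
      rw [norm_mul] at h2
      rw [Real.norm_of_nonneg (by positivity)]
      calc ‖T.Lq d (1 / 2 + y * I)‖ * ‖Mol Q lam Y d (1 / 2 + y * I)‖ * Real.exp (-|y|)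
          ≤ C1 * T.c * M1 * Real.exp (Real.pi / 32 * |y|) * Real.exp (-|y|) := by gcongr
        _ = _ := by
            rw [mul_assoc, ← Real.exp_add]
            congr 2
            ring
  have hJb : ‖J‖ ≤ CΓ / δ * Z ^ (-δ) * W := by
    rw [hW, ← integral_const_mul]
    refine norm_integral_le_of_norm_le (hWint.const_mul _) (Eventually.of_forall fun y => ?_)
    have hz1 : (((-δ : ℝ) : ℂ) + y * I).re = -δ := by simp
    have hz2 : (((-δ : ℝ) : ℂ) + y * I).im = y := by simp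
    have h3 := hΓ (((-δ : ℝ) : ℂ) + y * I + 1) (by
      rw [Complex.add_re, hz1, Complex.one_re]
      linarith) (by
      rw [Complex.add_re, hz1, Complex.one_re]
      linarith)
    rw [Complex.add_im, hz2, Complex.one_im, add_zero] at h3
    have h4 : δ ≤ ‖((-δ : ℝ) : ℂ) + y * I‖ := by
      have h5 := Complex.abs_re_le_norm (((-δ : ℝ) : ℂ) + y * I)
      rw [hz1, abs_neg, abs_of_pos hδ] at h5
      exact h5
    have h5 : (1 / 2 + δ + (((-δ : ℝ) : ℂ) + y * I) : ℂ) = 1 / 2 + y * I := by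
      push_cast
      ring
    have h6 : Real.exp (-(5 / 4) * |y|) ≤ Real.exp (-|y|) := by
      refine Real.exp_le_exp.2 ?_
      have := abs_nonneg y
      linarith
    simp only [hH]
    rw [h5, norm_div, norm_mul, norm_mul, Complex.norm_cpow_eq_rpow_re_of_pos hZ0, hz1]
    simp only [hF]
    rw [norm_mul]
    calc ‖Complex.Gamma (((-δ : ℝ) : ℂ) + y * I + 1)‖ *
          (‖T.Lq d (1 / 2 + y * I)‖ * ‖Mol Q lam Y d (1 / 2 + y * I)‖) * Z ^ (-δ) /
            ‖((-δ : ℝ) : ℂ) + y * I‖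
        ≤ (CΓ * Real.exp (-|y|)) *
          (‖T.Lq d (1 / 2 + y * I)‖ * ‖Mol Q lam Y d (1 / 2 + y * I)‖) * Z ^ (-δ) / δ := by
          have h7 : ‖Complex.Gamma (((-δ : ℝ) : ℂ) + y * I + 1)‖ ≤ CΓ * Real.exp (-|y|) :=
            h3.trans (mul_le_mul_of_nonneg_left h6 hCΓ.le)
          gcongr
      _ = _ := by ring
  -- the sum
  have hS2 : S = Real.exp (-(1 / Z)) + ∑' n : ℕ, if Y < n then
      ((cY Q lam Y n * js d n * (n : ℝ) ^ (-(1 / 2 + δ)) * Real.exp (-(n / Z)) : ℝ) : ℂ) else 0 := by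
    have hsC : Summable fun n : ℕ => ((cY Q lam Y n * js d n * (n : ℝ) ^ (-(1 / 2 + δ)) *
        Real.exp (-(n / Z)) : ℝ) : ℂ) := Complex.summable_ofReal.2 hsum
    have h1 : ∀ n : ℕ, ((cY Q lam Y n * js d n * (n : ℝ) ^ (-(1 / 2 + δ)) *
        Real.exp (-(n / Z)) : ℝ) : ℂ) = (if n = 1 then (Real.exp (-(1 / Z)) : ℂ) else 0) +
        if Y < n then ((cY Q lam Y n * js d n * (n : ℝ) ^ (-(1 / 2 + δ)) *
          Real.exp (-(n / Z)) : ℝ) : ℂ) else 0 := by
      intro n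
      by_cases h1 : n = 1
      · rw [h1, if_pos rfl, if_neg (by omega), cY_one hY T.hecke, js_one]
        simp
      · rw [if_neg h1, zero_add]
        by_cases h2 : Y < n
        · rw [if_pos h2]
        · rw [if_neg h2]
          by_cases h0 : n = 0
          · rw [h0, cY_zero]
            simp
          · rw [cY_small (by omega) (by omega) T.hecke]
            simp
    have hs2 : Summable fun n : ℕ => if Y < n then ((cY Q lam Y n * js d n *
        (n : ℝ) ^ (-(1 / 2 + δ)) * Real.exp (-(n / Z)) : ℝ) : ℂ) else 0 := by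
      refine Summable.of_norm_bounded hsC.norm fun n => ?_
      split_ifs
      · exact le_rfl
      · rw [norm_zero]
        exact norm_nonneg _
    rw [hS, tsum_congr h1, Summable.tsum_add ?_ hs2, tsum_ite_eq]
    exact (hasSum_ite_eq 1 _).summable
  -- conclusion
  have hpiC : (2 * Real.pi : ℂ) ≠ 0 := by
    have : (2 * Real.pi : ℝ) ≠ 0 := by positivity
    exact_mod_cast this
  have hfin : F (1 / 2 + δ) - 1 = (S - Real.exp (-(1 / Z))) + (Real.exp (-(1 / Z)) - 1) -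
      J / (2 * Real.pi) := by
    generalize F (1 / 2 + δ) = f0 at hcross ⊢
    have h1 : J = 2 * Real.pi * S - 2 * Real.pi * f0 := by rw [← hcross]; ring
    rw [h1]
    field_simp
    ring
  have hexp : ‖((Real.exp (-(1 / Z)) : ℝ) : ℂ) - 1‖ ≤ 1 / Z := by
    have h1 : ((Real.exp (-(1 / Z)) : ℝ) : ℂ) - 1 = ((Real.exp (-(1 / Z)) - 1 : ℝ) : ℂ) := by
      push_cast
      ring
    rw [h1, Complex.norm_real, Real.norm_eq_abs, abs_le]
    have h2 := Real.add_one_le_exp (-(1 / Z))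
    have h3 : Real.exp (-(1 / Z)) ≤ 1 := Real.exp_le_one_iff.2 (by
      have : 0 ≤ 1 / Z := by positivity
      linarith)
    have h4 : 0 ≤ 1 / Z := by positivity
    constructor <;> linarith
  have hS3 : S - Real.exp (-(1 / Z)) = ∑' n : ℕ, if Y < n then
      ((cY Q lam Y n * js d n * (n : ℝ) ^ (-(1 / 2 + δ)) * Real.exp (-(n / Z)) : ℝ) : ℂ) else 0 := by
    rw [hS2]
    ring
  change ‖F (1 / 2 + δ) - 1‖ ≤ _
  rw [hfin, hS3]
  refine (norm_sub_le _ _).trans ?_
  refine add_le_add ((norm_add_le _ _).trans (add_le_add le_rfl hexp)) ?_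
  have h9 : ‖(2 * Real.pi : ℂ)‖ = 2 * Real.pi := by
    rw [norm_mul, Complex.norm_real, Real.norm_eq_abs, abs_of_pos hpi]
    norm_num
  rw [norm_div, h9]
  refine (div_le_self (norm_nonneg _) ?_).trans hJb
  linarith [Real.pi_gt_three]

end Pool.Agent.Y180.QT12b2
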