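import Pool.Agent.Y180.QT12b1

/-!
Dirichlet series of the quadratic twists and of the mollifier.
-/

set_option autoImplicit false

namespace Pool.Agent.Y180.QT12b2

open Complex Filter Topology
open Pool.Agent.Y19.QT
open Pool.Agent.H306R2.RZ (js)

/-- a real sequence as a complex sequence -/
noncomputable def cx (a : ℕ → ℝ) : ℕ → ℂ := fun n => (a n : ℂ)

theorem tsum_eq {a : ℕ → ℝ} (h0 : a 0 = 0) (s : ℂ) :
    ∑' n : ℕ, (a n : ℂ) * (n : ℂ) ^ (-s) = LSeries (cx a) s := by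
  unfold LSeries
  refine tsum_congr fun n => ?_
  rw [LSeries.term_def₀ (f := cx a) (by simp [cx, h0])]
  rfl

theorem js_le (d : ℤ) (n : ℕ) : |js d n| ≤ 1 := by
  unfold js
  rcases jacobiSym.trichotomy d n with h | h | h <;> rw [h] <;> norm_num

theorem js_mul (d : ℤ) (m n : ℕ) (hm : m ≠ 0) (hn : n ≠ 0) : js d (m * n) = js d m * js d n := by
  unfold js
  haveI : NeZero m := ⟨hm⟩
  haveI : NeZero n := ⟨hn⟩
  rw [jacobiSym.mul_right]
  push_cast
  rfl

theorem js_one (d : ℤ) : js d 1 = 1 := by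
  unfold js
  rw [jacobiSym.one_right]
  norm_num

theorem summable_quarter {a : ℕ → ℝ} (ha : Summable (fun n : ℕ => |a n| * (n : ℝ) ^ (-(1 / 4) : ℝ)))
    {s : ℂ} (hs : 1 / 4 ≤ s.re) : LSeriesSummable (cx a) s := by
  refine Summable.of_norm_bounded ha fun n => ?_
  rw [LSeries.norm_term_eq]
  split_ifs with hn
  · positivity
  · have hn1 : (1 : ℝ) ≤ n := by exact_mod_cast Nat.one_le_iff_ne_zero.2 hn
    rw [cx, Complex.norm_real, Real.norm_eq_abs, Real.rpow_neg (by positivity), ← div_eq_mul_inv]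
    exact div_le_div_of_nonneg_left (abs_nonneg _) (by positivity)
      (Real.rpow_le_rpow_of_exponent_le hn1 hs)

theorem summable_two {a : ℕ → ℝ} (ha : ∀ n, |a n| ≤ n) {s : ℂ} (hs : 2 < s.re) :
    LSeriesSummable (cx a) s := by
  refine LSeriesSummable_of_le_const_mul_rpow (x := 2) hs ⟨1, fun n _ => ?_⟩
  rw [cx, Complex.norm_real, Real.norm_eq_abs, one_mul]
  norm_num
  exact ha n

variable {Q : ℕ} {lam : ℕ → ℝ}

theorem lj_le (H : Hecke Q lam) (d : ℤ) (n : ℕ) : |lam n * js d n| ≤ n := by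
  rw [abs_mul]
  have h1 := (Pool.Agent.Y180.QT12b1.T12b1 Q lam H).2.1 n
  have h2 : ((n.divisors.card : ℕ) : ℝ) ≤ n := by exact_mod_cast Nat.card_divisors_le_self n
  calc |lam n| * |js d n| ≤ |lam n| * 1 := mul_le_mul_of_nonneg_left (js_le d n) (abs_nonneg _)
    _ ≤ n := by rw [mul_one]; exact h1.trans h2

/-- `Lq` is the Dirichlet series of `λ χ_d` -/
theorem Lq_eq (T : Twists Q lam) {d : ℤ} (hd : Squarefree d)
    (h8 : ∀ s : ℂ, 2 < s.re → T.ell d s = ∑' n : ℕ, (T.cf d n : ℂ) * (n : ℂ) ^ (-s))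
    {s : ℂ} (hs : 2 < s.re) : T.Lq d s = LSeries (cx fun n => lam n * js d n) s := by
  have he := summable_quarter (T.e_sum d hd).1 (s := s) (by linarith)
  have he' := summable_quarter (T.e'_sum d hd).1 (s := s) (by linarith)
  have hl := summable_two (lj_le T.hecke d) hs
  have hcf0 : T.cf d 0 = 0 := by simp [Twists.cf]
  have h1 : T.ell d s = LSeries (cx (T.e d)) s * LSeries (cx fun n => lam n * js d n) s := by
    rw [h8 s hs, tsum_eq hcf0, ← LSeries_convolution' he hl]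
    congr 1
    rw [LSeries.convolution_def]
    funext n
    simp only [cx, Twists.cf]
    push_cast
    rfl
  have h2 : LSeries (cx (T.e d)) s * LSeries (cx (T.e' d)) s = 1 := by
    rw [← LSeries_convolution' he he']
    have h3 : LSeries.convolution (cx (T.e d)) (cx (T.e' d)) = LSeries.delta := by
      rw [LSeries.convolution_def]
      funext n
      by_cases hn : n = 0
      · subst hn
        simp [LSeries.delta]
      · have h4 := T.e_inv d hd n (Nat.one_le_iff_ne_zero.2 hn)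
        simp only [cx, LSeries.delta]
        have h5 : (∑ x ∈ n.divisorsAntidiagonal, (T.e d x.1 : ℂ) * (T.e' d x.2 : ℂ)) =
            ((∑ x ∈ n.divisorsAntidiagonal, T.e d x.1 * T.e' d x.2 : ℝ) : ℂ) := by push_cast; rfl
        rw [h5, h4]
        split_ifs <;> norm_num
    rw [h3, LSeries_delta]
    rfl
  unfold Twists.Lq
  rw [h1, tsum_eq (T.e_zero d hd).2]
  calc LSeries (cx (T.e d)) s * LSeries (cx fun n => lam n * js d n) s * LSeries (cx (T.e' d)) s
      = (LSeries (cx (T.e d)) s * LSeries (cx (T.e' d)) s) *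
        LSeries (cx fun n => lam n * js d n) s := by ring
    _ = _ := by rw [h2, one_mul]

/-- the coefficients of the mollifier -/
noncomputable def mco (Q : ℕ) (lam : ℕ → ℝ) (Y : ℕ) (d : ℤ) (h : ℕ) : ℝ :=
  if h ≤ Y then muE Q lam h * js d h else 0

theorem mco_summable (Q : ℕ) (lam : ℕ → ℝ) (Y : ℕ) (d : ℤ) (s : ℂ) :
    LSeriesSummable (cx (mco Q lam Y d)) s := by
  refine summable_of_ne_finset_zero (s := Finset.range (Y + 1)) fun n hn => ?_
  have h1 : ¬ n ≤ Y := fun h => hn (Finset.mem_range.2 (by omega))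
  rw [LSeries.term_def]
  split_ifs
  · rfl
  · simp [cx, mco, h1]

theorem Mol_eq (Q : ℕ) (lam : ℕ → ℝ) (Y : ℕ) (d : ℤ) (s : ℂ) :
    Mol Q lam Y d s = LSeries (cx (mco Q lam Y d)) s := by
  unfold Mol LSeries
  rw [tsum_eq_sum (s := Finset.Icc 1 Y)]
  · refine Finset.sum_congr rfl fun h hh => ?_
    have h1 := Finset.mem_Icc.1 hh
    rw [LSeries.term_of_ne_zero (by omega), cpow_neg, ← div_eq_mul_inv]
    simp [cx, mco, h1.2]
  · intro n hn
    rw [LSeries.term_def]
    split_ifs with h0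
    · rfl
    · have h1 : ¬ n ≤ Y := fun h => hn (Finset.mem_Icc.2 ⟨by omega, h⟩)
      simp [cx, mco, h1]

/-- the coefficients of the product -/
theorem conv_eq (Y : ℕ) (d : ℤ) :
    LSeries.convolution (cx (mco Q lam Y d)) (cx fun n => lam n * js d n) =
      cx fun n => cY Q lam Y n * js d n := by
  rw [LSeries.convolution_def]
  funext n
  simp only [cx, mco, cY]
  rw [Finset.sum_mul]
  push_cast
  refine Finset.sum_congr rfl fun x hx => ?_
  obtain ⟨h1, h2⟩ := Nat.ne_zero_of_mem_divisorsAntidiagonal hx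
  have h3 : x.1 * x.2 = n := (Nat.mem_divisorsAntidiagonal.1 hx).1
  rw [← h3, js_mul d _ _ h1 h2]
  split_ifs
  · push_cast
    ring
  · simp

theorem prod_summable (H : Hecke Q lam) (Y : ℕ) (d : ℤ) {s : ℂ} (hs : 2 < s.re) :
    LSeriesSummable (cx fun n => cY Q lam Y n * js d n) s := by
  rw [← conv_eq]
  exact (mco_summable Q lam Y d s).convolution (summable_two (lj_le H d) hs)

theorem prod_eq (T : Twists Q lam) {d : ℤ} (hd : Squarefree d)
    (h8 : ∀ s : ℂ, 2 < s.re → T.ell d s = ∑' n : ℕ, (T.cf d n : ℂ) * (n : ℂ) ^ (-s)) (Y : ℕ)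
    {s : ℂ} (hs : 2 < s.re) :
    T.Lq d s * Mol Q lam Y d s = LSeries (cx fun n => cY Q lam Y n * js d n) s := by
  rw [Lq_eq T hd h8 hs, Mol_eq, ← conv_eq,
    LSeries_convolution' (mco_summable Q lam Y d s) (summable_two (lj_le T.hecke d) hs)]
  ring

theorem cY_one {Y : ℕ} (hY : 1 ≤ Y) (H : Hecke Q lam) : cY Q lam Y 1 = 1 := by
  unfold cY
  simp [hY, H.one, Pool.Agent.Y180.QT12b1.muE_one]

theorem cY_small {Y n : ℕ} (h1 : 1 < n) (hn : n ≤ Y) (H : Hecke Q lam) : cY Q lam Y n = 0 := by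
  have h2 := (Pool.Agent.Y180.QT12b1.T12b1 Q lam H).1 n (by omega)
  rw [if_neg (by omega)] at h2
  rw [← h2]
  unfold cY
  refine Finset.sum_congr rfl fun x hx => ?_
  have h3 : x.1 ≤ n := Nat.divisor_le (Nat.fst_mem_divisors_of_mem_antidiagonal hx)
  rw [if_pos (h3.trans hn)]

theorem cY_zero (Y : ℕ) : cY Q lam Y 0 = 0 := by simp [cY]

/-- the Dirichlet series of `e'` -/
noncomputable def Ep (T : Twists Q lam) (d : ℤ) (s : ℂ) : ℂ :=
  ∑' a : ℕ, (T.e' d a : ℂ) * (a : ℂ) ^ (-s)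

theorem Ep_term (T : Twists Q lam) {d : ℤ} (hd : Squarefree d) {s : ℂ} (hs : 1 / 4 ≤ s.re) (a : ℕ) :
    ‖(T.e' d a : ℂ) * (a : ℂ) ^ (-s)‖ ≤ |T.e' d a| * (a : ℝ) ^ (-(1 / 4) : ℝ) := by
  by_cases ha : a = 0
  · rw [ha, (T.e_zero d hd).2]
    simp
  · have ha1 : (1 : ℝ) ≤ a := by exact_mod_cast Nat.one_le_iff_ne_zero.2 ha
    rw [norm_mul, Complex.norm_real, Real.norm_eq_abs,
      Complex.norm_natCast_cpow_of_pos (Nat.pos_of_ne_zero ha)]
    refine mul_le_mul_of_nonneg_left ?_ (abs_nonneg _)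
    refine Real.rpow_le_rpow_of_exponent_le ha1 ?_
    rw [Complex.neg_re]
    linarith

theorem Ep_bound (T : Twists Q lam) {d : ℤ} (hd : Squarefree d) {s : ℂ} (hs : 1 / 4 ≤ s.re) :
    ‖Ep T d s‖ ≤ T.c := by
  have h1 := T.e'_sum d hd
  refine (tsum_of_norm_bounded h1.1.hasSum fun a => Ep_term T hd hs a).trans h1.2

theorem Ep_diff (T : Twists Q lam) {d : ℤ} (hd : Squarefree d) :
    DifferentiableOn ℂ (Ep T d) {s : ℂ | 1 / 4 < s.re} := by
  unfold Ep
  refine differentiableOn_tsum_of_summable_norm (T.e'_sum d hd).1 (fun a => ?_)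
    (isOpen_lt continuous_const Complex.continuous_re) fun a s hs => Ep_term T hd (le_of_lt hs) a
  by_cases ha : a = 0
  · rw [ha, (T.e_zero d hd).2]
    simp only [Complex.ofReal_zero, zero_mul]
    exact differentiableOn_const 0
  · intro s _
    refine DifferentiableAt.differentiableWithinAt ?_
    refine (differentiableAt_const _).mul ?_
    refine DifferentiableAt.const_cpow (by fun_prop) (Or.inl ?_)
    exact_mod_cast ha

theorem Mol_bound (Q : ℕ) (lam : ℕ → ℝ) (Y : ℕ) (d : ℤ) {s : ℂ} (hs : 0 ≤ s.re) :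
    ‖Mol Q lam Y d s‖ ≤ ∑ h ∈ Finset.Icc 1 Y, |muE Q lam h| := by
  unfold Mol
  refine (norm_sum_le _ _).trans (Finset.sum_le_sum fun h hh => ?_)
  have h1 : 1 ≤ h := (Finset.mem_Icc.1 hh).1
  have h2 : (1 : ℝ) ≤ h := by exact_mod_cast h1
  rw [norm_mul, Complex.norm_real, Real.norm_eq_abs, abs_mul,
    Complex.norm_natCast_cpow_of_pos (by omega)]
  have h3 : (h : ℝ) ^ (-s).re ≤ 1 := by
    refine Real.rpow_le_one_of_one_le_of_nonpos h2 ?_
    rw [Complex.neg_re]
    linarith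
  have h4 := js_le d h
  have h5 : 0 ≤ |muE Q lam h| := abs_nonneg _
  have h6 : 0 ≤ |js d h| := abs_nonneg _
  calc |muE Q lam h| * |js d h| * (h : ℝ) ^ (-s).re ≤ |muE Q lam h| * 1 * 1 := by gcongr
    _ = _ := by ring

theorem Mol_diff (Q : ℕ) (lam : ℕ → ℝ) (Y : ℕ) (d : ℤ) : Differentiable ℂ (Mol Q lam Y d) := by
  unfold Mol
  intro s
  refine DifferentiableAt.fun_sum fun h hh => ?_
  have h1 : 1 ≤ h := (Finset.mem_Icc.1 hh).1
  refine (differentiableAt_const _).mul ?_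
  refine DifferentiableAt.const_cpow (by fun_prop) (Or.inl ?_)
  exact_mod_cast (by omega : h ≠ 0)

end Pool.Agent.Y180.QT12b2
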