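import Mathlib

/-!
A zero of order `r` forces a large mean value.
-/

set_option autoImplicit false

namespace Pool.Agent.Y180.QT12d1

open Complex MeasureTheory Filter Topology
open scoped ENNReal

/-- division by the zero -/
theorem exists_quot {L : ℂ → ℂ} {U : Set ℂ} (hU : IsOpen U) {a : ℂ} (ha : a ∈ U)
    (hL : DifferentiableOn ℂ L U) {r : ℕ} (hr : (r : ℕ∞) ≤ analyticOrderAt L a) :
    ∃ g : ℂ → ℂ, DifferentiableOn ℂ g U ∧ ∀ z ∈ U, L z = (z - a) ^ r * g z := by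
  classical
  have han : AnalyticAt ℂ L a := hL.analyticAt (hU.mem_nhds ha)
  obtain ⟨g0, hg0, hg⟩ := (natCast_le_analyticOrderAt han).1 hr
  refine ⟨fun z => if z = a then g0 a else L z / (z - a) ^ r, ?_, ?_⟩
  · intro z hz
    by_cases hza : z = a
    · subst hza
      have h1 : (fun z' => if z' = z then g0 z else L z' / (z' - z) ^ r) =ᶠ[𝓝 z] g0 := by
        filter_upwards [hg] with w hw
        by_cases hwz : w = z
        · rw [if_pos hwz, hwz]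
        · rw [if_neg hwz, hw, smul_eq_mul, mul_div_cancel_left₀]
          exact pow_ne_zero _ (sub_ne_zero.2 hwz)
      exact (hg0.congr h1.symm).differentiableAt.differentiableWithinAt
    · have h1 : (fun z' => if z' = a then g0 a else L z' / (z' - a) ^ r) =ᶠ[𝓝 z]
          fun z' => L z' / (z' - a) ^ r := by
        filter_upwards [isOpen_ne.mem_nhds hza] with w hw
        rw [if_neg hw]
      have h2 : DifferentiableAt ℂ L z := (hL z hz).differentiableAt (hU.mem_nhds hz)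
      have h3 : DifferentiableAt ℂ (fun z' => L z' / (z' - a) ^ r) z := by
        refine h2.div ?_ (pow_ne_zero _ (sub_ne_zero.2 hza))
        fun_prop
      exact (h1.symm.differentiableAt_iff.1 h3).differentiableWithinAt
  · intro z hz
    dsimp only
    by_cases hza : z = a
    · rw [if_pos hza]
      have h1 := hg.self_of_nhds
      rw [hza, h1, smul_eq_mul]
    · rw [if_neg hza, mul_div_cancel₀]
      exact pow_ne_zero _ (sub_ne_zero.2 hza)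

/-- the mean value inequality on a circle -/
theorem circle {H : ℂ → ℂ} {c : ℂ} {R : ℝ} (hR : 0 < R)
    (hH : DifferentiableOn ℂ H (Metric.closedBall c R)) :
    ENNReal.ofReal (2 * Real.pi) * ‖H c‖ₑ ≤
      ∫⁻ θ in Set.Ioo (-Real.pi) Real.pi, ‖H (circleMap c R θ)‖ₑ := by
  have hd : DiffContOnCl ℂ H (Metric.ball c |R|) := by
    apply DifferentiableOn.diffContOnCl
    rw [abs_of_pos hR, closure_ball _ hR.ne']
    exact hH
  have h1 := hd.circleAverage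
  unfold Real.circleAverage at h1
  have hper : Function.Periodic (fun θ : ℝ => H (circleMap c R θ)) (2 * Real.pi) := by
    intro θ
    dsimp only
    rw [periodic_circleMap]
  have h2 := hper.intervalIntegral_add_eq 0 (-Real.pi)
  rw [zero_add, show -Real.pi + 2 * Real.pi = Real.pi by ring] at h2
  rw [h2] at h1
  have hpi : (0 : ℝ) < 2 * Real.pi := by positivity
  have h3 : ∫ θ in (-Real.pi)..Real.pi, H (circleMap c R θ) = (2 * Real.pi : ℝ) • H c := by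
    rw [← h1, smul_smul, mul_inv_cancel₀ hpi.ne', one_smul]
  rw [intervalIntegral.integral_of_le (by linarith [Real.pi_pos])] at h3
  have h4 := enorm_integral_le_lintegral_enorm (μ := volume.restrict (Set.Ioc (-Real.pi) Real.pi))
    (fun θ : ℝ => H (circleMap c R θ))
  rw [h3, enorm_smul, Real.enorm_of_nonneg hpi.le] at h4
  rw [restrict_Ioo_eq_restrict_Ioc]
  exact h4

theorem mem_ball {δ : ℝ} (hδ : 0 < δ) {x y : ℝ} (hx : |x| ≤ 8 * δ) (hy : |y| ≤ 8 * δ) :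
    (1 / 2 + δ + (x + y * I) : ℂ) ∈ Metric.ball (1 / 2 : ℂ) (20 * δ) := by
  rw [Metric.mem_ball, dist_eq_norm]
  have h1 : (1 / 2 + δ + (x + y * I) : ℂ) - 1 / 2 = (δ : ℂ) + (x + y * I) := by ring
  rw [h1]
  calc ‖(δ : ℂ) + (x + y * I)‖ ≤ ‖(δ : ℂ)‖ + (‖(x : ℂ)‖ + ‖(y * I : ℂ)‖) :=
        (norm_add_le _ _).trans (by gcongr; exact norm_add_le _ _)
    _ = δ + (|x| + |y|) := by
        rw [norm_mul, Complex.norm_I, mul_one, Complex.norm_real, Complex.norm_real,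
          Complex.norm_real, Real.norm_eq_abs, Real.norm_eq_abs, Real.norm_eq_abs, abs_of_pos hδ]
    _ < 20 * δ := by linarith

/-- step A -/
theorem stepA {L M : ℂ → ℂ} {δ : ℝ} {r : ℕ} (hδ : 0 < δ)
    (hL : DifferentiableOn ℂ L (Metric.ball (1 / 2) (20 * δ)))
    (hM : DifferentiableOn ℂ M (Metric.ball (1 / 2) (20 * δ)))
    (hr : (r : ℕ∞) ≤ analyticOrderAt L (1 / 2)) {R : ℝ} (hR1 : 5 * δ ≤ R) (hR2 : R ≤ 8 * δ) :
    ENNReal.ofReal (2 * Real.pi) * ENNReal.ofReal (4 ^ r * ‖L (1 / 2 + δ) * M (1 / 2 + δ)‖) ≤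
      ∫⁻ θ in Set.Ioo (-Real.pi) Real.pi, ‖L (1 / 2 + δ + ((R * Real.cos θ : ℝ) +
        (R * Real.sin θ : ℝ) * I))‖ₑ * ‖M (1 / 2 + δ + ((R * Real.cos θ : ℝ) +
        (R * Real.sin θ : ℝ) * I))‖ₑ := by
  obtain ⟨g, hg1, hg2⟩ := exists_quot Metric.isOpen_ball
    (Metric.mem_ball_self (by positivity : 0 < 20 * δ)) hL hr
  have hR0 : 0 < R := by linarith
  have hsub : Metric.closedBall (1 / 2 + δ : ℂ) R ⊆ Metric.ball (1 / 2 : ℂ) (20 * δ) := by
    intro z hz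
    rw [Metric.mem_closedBall, dist_eq_norm] at hz
    rw [Metric.mem_ball, dist_eq_norm]
    calc ‖z - 1 / 2‖ = ‖(z - (1 / 2 + δ)) + δ‖ := by congr 1; ring
      _ ≤ ‖z - (1 / 2 + δ)‖ + ‖(δ : ℂ)‖ := norm_add_le _ _
      _ ≤ R + δ := by
        rw [Complex.norm_real, Real.norm_eq_abs, abs_of_pos hδ]
        linarith
      _ < 20 * δ := by linarith
  have h1 := circle (H := fun z => g z * M z) hR0 ((hg1.mul hM).mono hsub)
  have hc : ∀ θ : ℝ, circleMap (1 / 2 + δ : ℂ) R θ = 1 / 2 + δ + ((R * Real.cos θ : ℝ) +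
      (R * Real.sin θ : ℝ) * I) := by
    intro θ
    unfold circleMap
    rw [Complex.exp_mul_I]
    push_cast
    ring
  have h2 : ∀ θ : ℝ, ENNReal.ofReal ((4 * δ) ^ r) *
      ‖g (circleMap (1 / 2 + δ : ℂ) R θ) * M (circleMap (1 / 2 + δ : ℂ) R θ)‖ₑ ≤
      ‖L (1 / 2 + δ + ((R * Real.cos θ : ℝ) + (R * Real.sin θ : ℝ) * I))‖ₑ *
        ‖M (1 / 2 + δ + ((R * Real.cos θ : ℝ) + (R * Real.sin θ : ℝ) * I))‖ₑ := by
    intro θ
    rw [← hc θ]
    set z := circleMap (1 / 2 + δ : ℂ) R θ with hz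
    have hzs : z ∈ Metric.closedBall (1 / 2 + δ : ℂ) R :=
      Metric.sphere_subset_closedBall (circleMap_mem_sphere _ hR0.le θ)
    have hzd : ‖z - (1 / 2 + δ)‖ = R := by
      have := circleMap_mem_sphere (1 / 2 + δ : ℂ) hR0.le θ
      rwa [mem_sphere_iff_norm] at this
    have hza : 4 * δ ≤ ‖z - 1 / 2‖ := by
      have h5 : ‖z - (1 / 2 + δ)‖ ≤ ‖z - 1 / 2‖ + ‖(δ : ℂ)‖ := by
        have : z - (1 / 2 + δ) = (z - 1 / 2) - δ := by ring
        rw [this]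
        exact norm_sub_le _ _
      rw [hzd, Complex.norm_real, Real.norm_eq_abs, abs_of_pos hδ] at h5
      linarith
    have h6 : L z = (z - 1 / 2) ^ r * g z := hg2 z (hsub hzs)
    rw [h6, enorm_mul, enorm_mul, ← mul_assoc]
    gcongr
    rw [enorm_pow, ENNReal.ofReal_pow (by positivity)]
    gcongr
    rw [← ofReal_norm]
    exact ENNReal.ofReal_le_ofReal hza
  have h3 : ENNReal.ofReal (4 ^ r * ‖L (1 / 2 + δ) * M (1 / 2 + δ)‖) =
      ENNReal.ofReal ((4 * δ) ^ r) * ‖g (1 / 2 + δ) * M (1 / 2 + δ)‖ₑ := by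
    have h6 : L (1 / 2 + δ) = (1 / 2 + δ - 1 / 2) ^ r * g (1 / 2 + δ) :=
      hg2 _ (hsub (Metric.mem_closedBall_self hR0.le))
    rw [h6, ← ofReal_norm, ← ENNReal.ofReal_mul (by positivity)]
    congr 1
    rw [show (1 / 2 + δ - 1 / 2 : ℂ) = δ by ring, mul_assoc ((δ : ℂ) ^ r), norm_mul ((δ : ℂ) ^ r),
      norm_pow, Complex.norm_real, Real.norm_eq_abs, abs_of_pos hδ, mul_pow, mul_assoc]
  rw [h3]
  calc ENNReal.ofReal (2 * Real.pi) * (ENNReal.ofReal ((4 * δ) ^ r) *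
        ‖g (1 / 2 + δ) * M (1 / 2 + δ)‖ₑ)
      = ENNReal.ofReal ((4 * δ) ^ r) * (ENNReal.ofReal (2 * Real.pi) *
        ‖g (1 / 2 + δ) * M (1 / 2 + δ)‖ₑ) := by ring
    _ ≤ ENNReal.ofReal ((4 * δ) ^ r) * ∫⁻ θ in Set.Ioo (-Real.pi) Real.pi,
        ‖g (circleMap (1 / 2 + δ : ℂ) R θ) * M (circleMap (1 / 2 + δ : ℂ) R θ)‖ₑ := by gcongr
    _ = ∫⁻ θ in Set.Ioo (-Real.pi) Real.pi, ENNReal.ofReal ((4 * δ) ^ r) *
        ‖g (circleMap (1 / 2 + δ : ℂ) R θ) * M (circleMap (1 / 2 + δ : ℂ) R θ)‖ₑ := by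
        rw [lintegral_const_mul' _ _ ENNReal.ofReal_ne_top]
    _ ≤ _ := lintegral_mono fun θ => h2 θ

/-- the square -/
def Sq (δ : ℝ) : Set (ℝ × ℝ) := Set.Icc (-(8 * δ)) (8 * δ) ×ˢ Set.Icc (-(8 * δ)) (8 * δ)

/-- the point -/
noncomputable def pt (δ : ℝ) (p : ℝ × ℝ) : ℂ := 1 / 2 + δ + ((p.1 : ℂ) + (p.2 : ℂ) * I)

theorem continuous_pt (δ : ℝ) : Continuous (pt δ) := by
  unfold pt
  fun_prop

theorem pt_mem {δ : ℝ} (hδ : 0 < δ) {p : ℝ × ℝ} (hp : p ∈ Sq δ) :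
    pt δ p ∈ Metric.ball (1 / 2 : ℂ) (20 * δ) :=
  mem_ball hδ (abs_le.2 hp.1) (abs_le.2 hp.2)

theorem measurableSet_Sq (δ : ℝ) : MeasurableSet (Sq δ) := measurableSet_Icc.prod measurableSet_Icc

theorem isCompact_Sq (δ : ℝ) : IsCompact (Sq δ) := isCompact_Icc.prod isCompact_Icc

theorem contOn {L : ℂ → ℂ} {δ : ℝ} (hδ : 0 < δ)
    (hL : DifferentiableOn ℂ L (Metric.ball (1 / 2) (20 * δ))) :
    ContinuousOn (fun p => L (pt δ p)) (Sq δ) :=
  hL.continuousOn.comp (continuous_pt δ).continuousOn fun _ hp => pt_mem hδ hp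

/-- step B -/
theorem stepB {L M : ℂ → ℂ} {δ : ℝ} {r : ℕ} (hδ : 0 < δ)
    (hL : DifferentiableOn ℂ L (Metric.ball (1 / 2) (20 * δ)))
    (hM : DifferentiableOn ℂ M (Metric.ball (1 / 2) (20 * δ)))
    (hr : (r : ℕ∞) ≤ analyticOrderAt L (1 / 2)) :
    ENNReal.ofReal (3 * δ * (5 * δ)) * (ENNReal.ofReal (2 * Real.pi) *
      ENNReal.ofReal (4 ^ r * ‖L (1 / 2 + δ) * M (1 / 2 + δ)‖)) ≤
      ∫⁻ p in Sq δ, ‖L (pt δ p)‖ₑ * ‖M (pt δ p)‖ₑ := by
  set Φ : ℝ × ℝ → ℝ≥0∞ := (Sq δ).indicator fun p => ‖L (pt δ p)‖ₑ * ‖M (pt δ p)‖ₑ with hΦ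
  rw [← lintegral_indicator (measurableSet_Sq δ), ← hΦ, ← lintegral_comp_polarCoord_symm]
  set A : Set (ℝ × ℝ) := Set.Icc (5 * δ) (8 * δ) ×ˢ Set.Ioo (-Real.pi) Real.pi with hA
  have hAt : A ⊆ polarCoord.target := by
    rintro ⟨R, θ⟩ ⟨hR, hθ⟩
    rw [polarCoord_target]
    refine ⟨?_, hθ⟩
    have h1 : 5 * δ ≤ R := hR.1
    exact lt_of_lt_of_le (by positivity) h1
  have hsq : ∀ R θ : ℝ, 5 * δ ≤ R → R ≤ 8 * δ → (R * Real.cos θ, R * Real.sin θ) ∈ Sq δ := by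
    intro R θ h1 h2
    have hR0 : 0 ≤ R := by linarith
    refine ⟨abs_le.1 ?_, abs_le.1 ?_⟩
    · dsimp only
      rw [abs_mul, abs_of_nonneg hR0]
      exact (mul_le_of_le_one_right hR0 (Real.abs_cos_le_one θ)).trans h2
    · dsimp only
      rw [abs_mul, abs_of_nonneg hR0]
      exact (mul_le_of_le_one_right hR0 (Real.abs_sin_le_one θ)).trans h2
  have hAm : MeasurableSet A := measurableSet_Icc.prod measurableSet_Ioo
  have h1 : ∫⁻ p in A, ENNReal.ofReal p.1 * (‖L (pt δ (p.1 * Real.cos p.2, p.1 * Real.sin p.2))‖ₑ *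
      ‖M (pt δ (p.1 * Real.cos p.2, p.1 * Real.sin p.2))‖ₑ) ≤
      ∫⁻ p in polarCoord.target, ENNReal.ofReal p.1 • Φ (polarCoord.symm p) := by
    refine le_trans (le_of_eq ?_) (lintegral_mono_set hAt)
    refine setLIntegral_congr_fun hAm ?_
    rintro ⟨R, θ⟩ ⟨hR, hθ⟩
    dsimp only
    rw [polarCoord_symm_apply, hΦ, Set.indicator_of_mem (hsq R θ hR.1 hR.2), smul_eq_mul]
  refine le_trans ?_ h1
  have hcont : ContinuousOn (fun p : ℝ × ℝ => ((p.1 * Real.cos p.2, p.1 * Real.sin p.2) : ℝ × ℝ)) A :=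
    (by fun_prop : Continuous (fun p : ℝ × ℝ =>
      ((p.1 * Real.cos p.2, p.1 * Real.sin p.2) : ℝ × ℝ))).continuousOn
  have hmaps : Set.MapsTo (fun p : ℝ × ℝ => ((p.1 * Real.cos p.2, p.1 * Real.sin p.2) : ℝ × ℝ)) A
      (Sq δ) := by
    rintro ⟨R, θ⟩ ⟨hR, hθ⟩
    exact hsq R θ hR.1 hR.2
  have hmeas : AEMeasurable (fun p : ℝ × ℝ => ENNReal.ofReal p.1 *
      (‖L (pt δ (p.1 * Real.cos p.2, p.1 * Real.sin p.2))‖ₑ *
      ‖M (pt δ (p.1 * Real.cos p.2, p.1 * Real.sin p.2))‖ₑ))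
      ((volume.restrict (Set.Icc (5 * δ) (8 * δ))).prod
        (volume.restrict (Set.Ioo (-Real.pi) Real.pi))) := by
    rw [Measure.prod_restrict]
    have hl := ((contOn hδ hL).comp hcont hmaps).aestronglyMeasurable hAm (μ := volume)
    have hm := ((contOn hδ hM).comp hcont hmaps).aestronglyMeasurable hAm (μ := volume)
    exact (measurable_fst.ennreal_ofReal.aemeasurable).mul (hl.enorm.mul hm.enorm)
  rw [Measure.volume_eq_prod, ← Measure.prod_restrict, lintegral_prod _ hmeas]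
  calc ENNReal.ofReal (3 * δ * (5 * δ)) * (ENNReal.ofReal (2 * Real.pi) *
        ENNReal.ofReal (4 ^ r * ‖L (1 / 2 + δ) * M (1 / 2 + δ)‖))
      = ∫⁻ _ in Set.Icc (5 * δ) (8 * δ), ENNReal.ofReal (5 * δ) * (ENNReal.ofReal (2 * Real.pi) *
        ENNReal.ofReal (4 ^ r * ‖L (1 / 2 + δ) * M (1 / 2 + δ)‖)) := by
        rw [setLIntegral_const, Real.volume_Icc, ENNReal.ofReal_mul (by positivity)]
        rw [show 8 * δ - 5 * δ = 3 * δ by ring]
        ring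
    _ ≤ _ := by
        refine setLIntegral_mono' measurableSet_Icc fun R hR => ?_
        dsimp only
        have hA2 := stepA hδ hL hM hr hR.1 hR.2
        rw [lintegral_const_mul' _ _ ENNReal.ofReal_ne_top]
        refine mul_le_mul' (ENNReal.ofReal_le_ofReal hR.1) ?_
        exact hA2

/-- step D -/
theorem stepD {L : ℂ → ℂ} {δ : ℝ} (hδ : 0 < δ)
    (hL : DifferentiableOn ℂ L (Metric.ball (1 / 2) (20 * δ))) :
    ∫⁻ p in Sq δ, ‖L (pt δ p)‖ₑ ^ (2 : ℝ) =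
      ENNReal.ofReal (∫ σ in (1 / 2 - 7 * δ)..(1 / 2 + 9 * δ), ∫ y in (-(8 * δ))..(8 * δ),
        ‖L (σ + y * I)‖ ^ 2) := by
  have hc := contOn hδ hL
  have hi : IntegrableOn (fun p => ‖L (pt δ p)‖ ^ 2) (Sq δ) :=
    (hc.norm.pow 2).integrableOn_compact (isCompact_Sq δ)
  have h1 : ∫⁻ p in Sq δ, ‖L (pt δ p)‖ₑ ^ (2 : ℝ) =
      ∫⁻ p in Sq δ, ENNReal.ofReal (‖L (pt δ p)‖ ^ 2) := by
    refine lintegral_congr fun p => ?_
    rw [ENNReal.ofReal_pow (norm_nonneg _), ofReal_norm]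
    norm_cast
  rw [h1, ← ofReal_integral_eq_lintegral_ofReal hi (Eventually.of_forall fun p => by positivity)]
  congr 1
  have h2 : ∫ p in Sq δ, ‖L (pt δ p)‖ ^ 2 = ∫ x in Set.Icc (-(8 * δ)) (8 * δ),
      ∫ y in Set.Icc (-(8 * δ)) (8 * δ), ‖L (pt δ (x, y))‖ ^ 2 :=
    setIntegral_prod (fun p : ℝ × ℝ => ‖L (pt δ p)‖ ^ 2) hi
  rw [h2, integral_Icc_eq_integral_Ioc, ← intervalIntegral.integral_of_le (by linarith)]
  have h3 : ∫ σ in (1 / 2 - 7 * δ)..(1 / 2 + 9 * δ), ∫ y in (-(8 * δ))..(8 * δ),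
        ‖L (σ + y * I)‖ ^ 2 = ∫ x in (-(8 * δ))..(8 * δ), ∫ y in (-(8 * δ))..(8 * δ),
        ‖L (((x + (1 / 2 + δ) : ℝ) : ℂ) + y * I)‖ ^ 2 := by
    rw [intervalIntegral.integral_comp_add_right (fun σ : ℝ => ∫ y in (-(8 * δ))..(8 * δ),
      ‖L ((σ : ℂ) + y * I)‖ ^ 2)]
    congr 1 <;> ring
  rw [h3]
  refine intervalIntegral.integral_congr fun x _ => ?_
  rw [integral_Icc_eq_integral_Ioc, ← intervalIntegral.integral_of_le (by linarith)]
  refine intervalIntegral.integral_congr fun y _ => ?_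
  congr 3
  unfold pt
  push_cast
  ring

/-- T12d1: a zero of order `r` at `1/2` forces a large mean value -/
theorem T12d1 : ∃ C : ℝ, 0 < C ∧ ∀ (L M : ℂ → ℂ) (δ : ℝ) (r : ℕ), 0 < δ →
    DifferentiableOn ℂ L (Metric.ball (1 / 2) (20 * δ)) →
    DifferentiableOn ℂ M (Metric.ball (1 / 2) (20 * δ)) → (r : ℕ∞) ≤ analyticOrderAt L (1 / 2) →
    (4 : ℝ) ^ r * ‖L (1 / 2 + δ) * M (1 / 2 + δ)‖ ≤ C / δ ^ 2 *
      Real.sqrt (∫ σ in (1 / 2 - 7 * δ)..(1 / 2 + 9 * δ), ∫ y in (-(8 * δ))..(8 * δ),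
        ‖L (σ + y * I)‖ ^ 2) *
      Real.sqrt (∫ σ in (1 / 2 - 7 * δ)..(1 / 2 + 9 * δ), ∫ y in (-(8 * δ))..(8 * δ),
        ‖M (σ + y * I)‖ ^ 2) := by
  refine ⟨1, one_pos, fun L M δ r hδ hL hM hr => ?_⟩
  have hnn : ∀ f : ℂ → ℂ, 0 ≤ ∫ σ in (1 / 2 - 7 * δ)..(1 / 2 + 9 * δ),
      ∫ y in (-(8 * δ))..(8 * δ), ‖f (σ + y * I)‖ ^ 2 := by
    intro f
    refine intervalIntegral.integral_nonneg (by linarith) fun σ _ => ?_
    exact intervalIntegral.integral_nonneg (by linarith) fun y _ => by positivity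
  have hB := stepB hδ hL hM hr
  have hC := ENNReal.lintegral_mul_le_Lp_mul_Lq (volume.restrict (Sq δ))
    (p := 2) (q := 2) Real.HolderConjugate.two_two
    ((contOn hδ hL).aestronglyMeasurable (measurableSet_Sq δ)).enorm
    ((contOn hδ hM).aestronglyMeasurable (measurableSet_Sq δ)).enorm
  rw [stepD hδ hL, stepD hδ hM, ENNReal.ofReal_rpow_of_nonneg (hnn L) (by norm_num),
    ENNReal.ofReal_rpow_of_nonneg (hnn M) (by norm_num), ← Real.sqrt_eq_rpow, ← Real.sqrt_eq_rpow,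
    ← ENNReal.ofReal_mul (by positivity)] at hC
  have h1 := hB.trans hC
  rw [← ENNReal.ofReal_mul (by positivity), ← ENNReal.ofReal_mul (by positivity),
    ENNReal.ofReal_le_ofReal_iff (by positivity)] at h1
  have h2 : 4 ^ r * ‖L (1 / 2 + δ) * M (1 / 2 + δ)‖ * δ ^ 2 ≤
      3 * δ * (5 * δ) * (2 * Real.pi * (4 ^ r * ‖L (1 / 2 + δ) * M (1 / 2 + δ)‖)) := by
    have hpi := Real.pi_gt_three
    have h3 : 0 ≤ 4 ^ r * ‖L (1 / 2 + δ) * M (1 / 2 + δ)‖ * δ ^ 2 := by positivity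
    nlinarith
  have h3 := h2.trans h1
  rw [mul_assoc, div_mul_eq_mul_div, one_mul, le_div_iff₀ (by positivity)]
  exact h3

end Pool.Agent.Y180.QT12d1
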